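import Pool.Agent.MP_52a2fa_pr.H50.Walk

set_option autoImplicit false

namespace Pool.Agent.MP_52a2fa_pr.H50

open Finset

lemma sum_stp (g : ℤ → ℝ) (j : Fin 4) : ∑ σ : St, g (stp σ j) = 6 * g 0 + g 1 + g (-1) := by
  fin_cases j <;> simp [Fintype.sum_prod_type, Fin.sum_univ_four, stp, Pi.single_apply] <;> ring

lemma nrm_stp (σ : St) : nrm (stp σ) ≤ 1 := by
  rw [nrm_le]; intro j
  obtain ⟨i, b⟩ := σ
  by_cases h : j = i <;> cases b <;> simp [stp, h]

lemma dd_le_length (l : List St) : dd l ≤ l.length := by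
  induction l with
  | nil => simp [dd, rng]
  | cons σ l ih =>
    rw [dd_le]
    intro z hz
    simp only [rng, mem_insert, mem_image] at hz
    rcases hz with rfl | ⟨c, hc, rfl⟩
    · simp
    · have := nrm_add (stp σ) c
      have := nrm_stp σ
      have := nrm_le_dd hc
      simp only [List.length_cons]; omega

lemma coord_six (j : Fin 4) (n : ℕ) (s : ℝ) :
    EE n (fun l => (s + (pos l j : ℝ)) ^ 6) ≤
      s ^ 6 + 15 * n * s ^ 4 + 45 * (n : ℝ) ^ 2 * s ^ 2 + 15 * (n : ℝ) ^ 3 := by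
  induction n generalizing s with
  | zero => simp [EE]
  | succ n ih =>
    simp only [EE]
    have h1 : ∀ σ : St, EE n (fun l => (s + (pos (σ :: l) j : ℝ)) ^ 6) ≤
        (fun u : ℤ => (s + u) ^ 6 + 15 * n * (s + u) ^ 4 + 45 * (n : ℝ) ^ 2 * (s + u) ^ 2 +
          15 * (n : ℝ) ^ 3) (stp σ j) := by
      intro σ
      have := ih (s + (stp σ j : ℝ))
      simpa [add_assoc] using this
    have h2 := sum_le_sum fun σ (_ : σ ∈ (univ : Finset St)) => h1 σ
    rw [sum_stp (fun u : ℤ => (s + u) ^ 6 + 15 * n * (s + u) ^ 4 + 45 * (n : ℝ) ^ 2 * (s + u) ^ 2 +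
          15 * (n : ℝ) ^ 3)] at h2
    have hn : (0 : ℝ) ≤ n := Nat.cast_nonneg n
    have hs : 0 ≤ s ^ 2 := sq_nonneg s
    have hs4 : 0 ≤ s ^ 4 := by positivity
    rw [div_le_iff₀ (by norm_num)]
    refine h2.trans ?_
    push_cast
    nlinarith [mul_nonneg hn hs, mul_nonneg hn hn, mul_nonneg hn hs4]

lemma nrm_pow_six_le (z : V) : ((nrm z : ℝ)) ^ 6 ≤ ∑ j : Fin 4, ((z j : ℝ)) ^ 6 := by
  obtain ⟨j, -, hj⟩ := Finset.exists_mem_eq_sup (univ : Finset (Fin 4)) univ_nonempty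
    (fun j => (z j).natAbs)
  have : ((nrm z : ℝ)) ^ 6 = ((z j : ℝ)) ^ 6 := by
    rw [nrm, hj, Nat.cast_natAbs, Int.cast_abs, Even.pow_abs (by decide)]
  rw [this]
  exact single_le_sum (f := fun j => ((z j : ℝ)) ^ 6) (fun i _ => by positivity) (mem_univ j)

lemma nrm_six (n : ℕ) : EE n (fun l => ((nrm (pos l) : ℝ)) ^ 6) ≤ 60 * (n : ℝ) ^ 3 := by
  refine (EE_mono fun l _ => nrm_pow_six_le (pos l)).trans ?_
  rw [EE_sum]
  have : ∀ j : Fin 4, EE n (fun l => ((pos l j : ℝ)) ^ 6) ≤ 15 * (n : ℝ) ^ 3 := by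
    intro j; simpa using coord_six j n 0
  refine (sum_le_sum fun j _ => this j).trans ?_
  simp; linarith

lemma add_pow_six_le {x y : ℝ} (hx : 0 ≤ x) (hy : 0 ≤ y) :
    (y + x) ^ 6 ≤ 15625 * y ^ 6 + 4 * x ^ 6 := by
  by_cases h : 4 * y ≤ x
  · have : (y + x) ^ 6 ≤ (5 / 4 * x) ^ 6 := pow_le_pow_left₀ (by positivity) (by linarith) 6
    have h6 : 0 ≤ x ^ 6 := by positivity
    have h7 : 0 ≤ y ^ 6 := by positivity
    rw [mul_pow] at this
    nlinarith
  · have : (y + x) ^ 6 ≤ (5 * y) ^ 6 := pow_le_pow_left₀ (by positivity) (by linarith) 6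
    have h6 : 0 ≤ x ^ 6 := by positivity
    rw [mul_pow] at this
    nlinarith

/-- maximal inequality -/
lemma dd_six (n : ℕ) : EE n (fun l => ((dd l : ℝ)) ^ 6) ≤ 937500 * (n : ℝ) ^ 3 := by
  induction n using Nat.strong_induction_on with
  | _ n ih =>
    by_cases hn : n ≤ 1
    · refine EE_le_const fun l hl => ?_
      have h1 := dd_le_length l
      interval_cases n
      · have : dd l = 0 := by omega
        simp [this]
      · have : (dd l : ℝ) ≤ 1 := by exact_mod_cast (by omega : dd l ≤ 1)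
        have : (dd l : ℝ) ^ 6 ≤ 1 := pow_le_one₀ (by positivity) this
        norm_num; linarith
    · obtain ⟨p, q, rfl, hq, hqp, hpq⟩ : ∃ p q, n = p + q ∧ 1 ≤ q ∧ q ≤ p ∧ p ≤ 2 * q :=
        ⟨n - n / 2, n / 2, by omega, by omega, by omega, by omega⟩
      rw [EE_append]
      have h1 : EE p (fun l => EE q (fun l' => ((dd (l ++ l') : ℝ)) ^ 6)) ≤
          EE p (fun l => ((dd l : ℝ)) ^ 6 + (15625 * ((nrm (pos l) : ℝ)) ^ 6 +
            4 * (937500 * (q : ℝ) ^ 3))) := by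
        refine EE_mono fun l _ => ?_
        have h2 : EE q (fun l' => ((dd (l ++ l') : ℝ)) ^ 6) ≤
            EE q (fun l' => ((dd l : ℝ)) ^ 6 + (15625 * ((nrm (pos l) : ℝ)) ^ 6 +
              4 * ((dd l' : ℝ)) ^ 6)) := by
          refine EE_mono fun l' _ => ?_
          have h3 := dd_append l l'
          have h4 := add_pow_six_le (x := dd l') (y := nrm (pos l)) (by positivity) (by positivity)
          rcases le_max_iff.1 h3 with h | h
          · have : ((dd (l ++ l') : ℝ)) ^ 6 ≤ ((dd l : ℝ)) ^ 6 :=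
              pow_le_pow_left₀ (by positivity) (by exact_mod_cast h) 6
            have : 0 ≤ 15625 * ((nrm (pos l) : ℝ)) ^ 6 + 4 * ((dd l' : ℝ)) ^ 6 := by positivity
            linarith
          · have : ((dd (l ++ l') : ℝ)) ^ 6 ≤ ((nrm (pos l) : ℝ) + dd l') ^ 6 :=
              pow_le_pow_left₀ (by positivity) (by exact_mod_cast h) 6
            have : 0 ≤ ((dd l : ℝ)) ^ 6 := by positivity
            linarith
        rw [EE_add, EE_add, EE_const, EE_const, EE_mul] at h2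
        have := ih q (by omega)
        linarith
      rw [EE_add, EE_add, EE_mul, EE_const] at h1
      have h5 := ih p (by omega)
      have h6 := nrm_six p
      have hq' : (1 : ℝ) ≤ q := by exact_mod_cast hq
      have hqp' : (q : ℝ) ≤ p := by exact_mod_cast hqp
      have hpq' : (p : ℝ) ≤ 2 * q := by exact_mod_cast hpq
      push_cast
      have e1 : (q : ℝ) ^ 3 ≤ p * q ^ 2 := by nlinarith [sq_nonneg (q : ℝ)]
      have e2 : (p : ℝ) ^ 3 ≤ 2 * (p ^ 2 * q) := by nlinarith [sq_nonneg (p : ℝ)]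
      have e3 : (0 : ℝ) ≤ p ^ 2 * q := by positivity
      nlinarith

/-- tail bound for the maximal displacement -/
lemma dd_tail (n ρ : ℕ) (hρ : 0 < ρ) :
    EE n (fun l => if dd l ≤ ρ then (0 : ℝ) else 1) ≤ 937500 * (n : ℝ) ^ 3 / (ρ : ℝ) ^ 6 := by
  have hρ' : (0 : ℝ) < ρ := by exact_mod_cast hρ
  have h1 : EE n (fun l => if dd l ≤ ρ then (0 : ℝ) else 1) ≤
      EE n (fun l => ((ρ : ℝ) ^ 6)⁻¹ * ((dd l : ℝ)) ^ 6) := by
    refine EE_mono fun l _ => ?_
    split_ifs with h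
    · positivity
    · rw [inv_mul_eq_div, le_div_iff₀ (by positivity), one_mul]
      exact pow_le_pow_left₀ hρ'.le (by exact_mod_cast (by omega : ρ ≤ dd l)) 6
  rw [EE_mul] at h1
  refine h1.trans ?_
  rw [inv_mul_eq_div]
  exact div_le_div_of_nonneg_right (dd_six n) (by positivity)

end Pool.Agent.MP_52a2fa_pr.H50
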