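import Pool.Agent.MP_52a2fa_pr.H50.Mass
import Pool.Agent.MP_52a2fa_pr.H50.Moments

set_option autoImplicit false

namespace Pool.Agent.MP_52a2fa_pr.H50

open Finset
open scoped ENNReal Pointwise

/-- large worms meeting a box -/
def HS (x : V) (r : ℕ) : Set I :=
  {k | (∃ a ∈ k.2, nrm (k.1 + a - x) ≤ 100 * r) ∧ ∃ a ∈ k.2, ∃ b ∈ k.2, r ≤ nrm (a - b) + 1}

/-- number of starting points from which the walk meets the box -/
noncomputable def WW (ρ : ℕ) (l : List St) : ℕ := (box 0 ρ - rng l).card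

lemma WW_le (ρ : ℕ) (l : List St) : WW ρ l ≤ (2 * (ρ + dd l) + 1) ^ 4 := by
  rw [← card_box 0]
  refine card_le_card fun z hz => ?_
  obtain ⟨a, ha, b, hb, rfl⟩ := mem_sub.1 hz
  rw [mem_box, sub_zero] at *
  have := nrm_sub a b
  have := nrm_le_dd hb
  omega

lemma WW_append (ρ : ℕ) (a b : List St) : WW ρ (a ++ b) ≤ WW ρ a + WW ρ b := by
  have h : box 0 ρ - rng (a ++ b) ⊆
      (box 0 ρ - rng a) ∪ (box 0 ρ - rng b).image (fun z => z - pos a) := by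
    intro z hz
    obtain ⟨c, hc, d, hd, rfl⟩ := mem_sub.1 hz
    rcases mem_rng_append.1 hd with h | ⟨w, hw, rfl⟩
    · exact mem_union_left _ (sub_mem_sub hc h)
    · exact mem_union_right _ (mem_image.2 ⟨c - w, sub_mem_sub hc hw, by abel⟩)
  exact (card_le_card h).trans ((card_union_le _ _).trans (Nat.add_le_add_left card_image_le _))

lemma EW_short {r n : ℕ} (hr : 1 ≤ r) (hn : n ≤ r ^ 2) :
    EE n (fun l => (WW (100 * r) l : ℝ)) ≤ 203 ^ 4 * 937501 * (r : ℝ) ^ 4 := by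
  have hr' : (1 : ℝ) ≤ r := by exact_mod_cast hr
  have h1 : EE n (fun l => (WW (100 * r) l : ℝ)) ≤
      EE n (fun l => 203 ^ 4 * (r : ℝ) ^ 4 + (203 ^ 4 / (r : ℝ) ^ 2) * (dd l : ℝ) ^ 6) := by
    refine EE_mono fun l _ => ?_
    have h2 := WW_le (100 * r) l
    rcases le_total (dd l) r with h | h
    · have h3 : WW (100 * r) l ≤ (203 * r) ^ 4 := h2.trans (Nat.pow_le_pow_left (by omega) 4)
      have h4 : (WW (100 * r) l : ℝ) ≤ (203 * r) ^ 4 := by exact_mod_cast h3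
      have : 0 ≤ (203 ^ 4 / (r : ℝ) ^ 2) * (dd l : ℝ) ^ 6 := by positivity
      rw [mul_pow] at h4; linarith
    · have h3 : WW (100 * r) l ≤ (203 * dd l) ^ 4 := h2.trans (Nat.pow_le_pow_left (by omega) 4)
      have h4 : (WW (100 * r) l : ℝ) ≤ (203 * dd l) ^ 4 := by exact_mod_cast h3
      have h5 : (r : ℝ) ^ 2 ≤ (dd l : ℝ) ^ 2 := pow_le_pow_left₀ (by positivity) (by exact_mod_cast h) 2
      have h6 : (203 * (dd l : ℝ)) ^ 4 ≤ (203 ^ 4 / (r : ℝ) ^ 2) * (dd l : ℝ) ^ 6 := by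
        rw [div_mul_eq_mul_div, le_div_iff₀ (by positivity)]
        have : 0 ≤ (203 * (dd l : ℝ)) ^ 4 := by positivity
        nlinarith
      have : 0 ≤ 203 ^ 4 * (r : ℝ) ^ 4 := by positivity
      linarith
  rw [EE_add, EE_const, EE_mul] at h1
  have h2 := dd_six n
  have h3 : (n : ℝ) ^ 3 ≤ ((r : ℝ) ^ 2) ^ 3 := pow_le_pow_left₀ (by positivity) (by exact_mod_cast hn) 3
  have h4 : (203 ^ 4 / (r : ℝ) ^ 2) * EE n (fun l => (dd l : ℝ) ^ 6) ≤
      (203 ^ 4 / (r : ℝ) ^ 2) * (937500 * ((r : ℝ) ^ 2) ^ 3) :=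
    mul_le_mul_of_nonneg_left (by linarith) (by positivity)
  have h5 : (203 ^ 4 / (r : ℝ) ^ 2) * (937500 * ((r : ℝ) ^ 2) ^ 3) =
      203 ^ 4 * 937500 * (r : ℝ) ^ 4 := by field_simp
  linarith

lemma EW_long {r : ℕ} (hr : 1 ≤ r) (n : ℕ) :
    EE n (fun l => (WW (100 * r) l : ℝ)) ≤ 203 ^ 4 * 937501 * ((r : ℝ) ^ 2 * n + (r : ℝ) ^ 4) := by
  induction n using Nat.strong_induction_on with
  | _ n ih =>
    by_cases hn : n ≤ r ^ 2
    · have := EW_short hr hn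
      have : 0 ≤ (r : ℝ) ^ 2 * n := by positivity
      linarith
    · obtain ⟨k, rfl⟩ : ∃ k, n = r ^ 2 + k := ⟨n - r ^ 2, by omega⟩
      have hpos : 0 < r ^ 2 := by positivity
      rw [EE_append]
      have h1 : EE (r ^ 2) (fun l => EE k (fun l' => (WW (100 * r) (l ++ l') : ℝ))) ≤
          EE (r ^ 2) (fun l => (WW (100 * r) l : ℝ) + EE k (fun l' => (WW (100 * r) l' : ℝ))) := by
        refine EE_mono fun l _ => ?_
        rw [← EE_const k (WW (100 * r) l : ℝ), ← EE_add]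
        exact EE_mono fun l' _ => by exact_mod_cast WW_append _ _ _
      rw [EE_add, EE_const] at h1
      have h2 := EW_short hr (le_refl (r ^ 2))
      have h3 := ih k (by omega)
      push_cast
      nlinarith

open Classical in
/-- the weight of a large walk -/
noncomputable def gH (r : ℕ) (l : List St) : ℝ :=
  if ∃ a ∈ rng l, ∃ b ∈ rng l, r ≤ nrm (a - b) + 1 then (WW (100 * r) l : ℝ) else 0

lemma gH_nonneg (r : ℕ) (l : List St) : 0 ≤ gH r l := by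
  unfold gH; split_ifs <;> positivity

lemma cnt_HS (x : V) (r : ℕ) (l : List St) : cnt (HS x r) (rng l) ≤ ENNReal.ofReal (gH r l) := by
  unfold gH
  split_ifs with h
  · refine (cnt_le (F := (box 0 (100 * r) - rng l).image (fun z => z + x)) ?_).trans ?_
    · rintro y ⟨⟨a, ha, h1⟩, -⟩
      exact mem_image.2 ⟨y + a - x - a, sub_mem_sub (by rwa [mem_box, sub_zero]) ha, by abel⟩
    · exact ENNReal.ofReal_le_ofReal (by exact_mod_cast card_image_le)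
  · simpa using cnt_le (S := HS x r) (A := rng l) (F := ∅) fun y hy => absurd hy.2 h

lemma EgH_small {r : ℕ} (hr : 2 ≤ r) (n : ℕ) :
    EE n (gH r) ≤ 603 ^ 4 * 9 * 937500 * (n : ℝ) ^ 3 / (r : ℝ) ^ 2 := by
  have hr' : (0 : ℝ) < r := by exact_mod_cast (by omega : 0 < r)
  have h1 : EE n (gH r) ≤ EE n (fun l => (603 ^ 4 * 9 / (r : ℝ) ^ 2) * (dd l : ℝ) ^ 6) := by
    refine EE_mono fun l _ => ?_
    unfold gH
    split_ifs with h
    · obtain ⟨a, ha, b, hb, h⟩ := h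
      have h2 := nrm_sub a b
      have h3 := nrm_le_dd ha
      have h4 := nrm_le_dd hb
      have h5 : r ≤ 3 * dd l := by omega
      have h6 : WW (100 * r) l ≤ (603 * dd l) ^ 4 :=
        (WW_le _ l).trans (Nat.pow_le_pow_left (by omega) 4)
      have h7 : (WW (100 * r) l : ℝ) ≤ (603 * dd l) ^ 4 := by exact_mod_cast h6
      have h8 : (r : ℝ) ^ 2 ≤ (3 * dd l : ℝ) ^ 2 :=
        pow_le_pow_left₀ (by positivity) (by exact_mod_cast h5) 2
      refine h7.trans ?_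
      rw [div_mul_eq_mul_div, le_div_iff₀ (by positivity)]
      have : 0 ≤ (603 * (dd l : ℝ)) ^ 4 := by positivity
      nlinarith
    · positivity
  rw [EE_mul] at h1
  refine h1.trans ((mul_le_mul_of_nonneg_left (dd_six n) (by positivity)).trans (le_of_eq ?_))
  ring

lemma EgH_large {r : ℕ} (hr : 1 ≤ r) (n : ℕ) :
    EE n (gH r) ≤ 203 ^ 4 * 937501 * ((r : ℝ) ^ 2 * n + (r : ℝ) ^ 4) := by
  refine le_trans (EE_mono fun l _ => ?_) (EW_long hr n)
  unfold gH; split_ifs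
  · exact le_rfl
  · positivity

lemma term_le {m : ℕ → ℝ} {C : ℝ} (hC : 0 < C)
    (h3 : ∀ l : ℕ, 1 ≤ l → m l ≤ C / (l : ℝ) ^ 3) {r : ℕ} (hr : 1 ≤ r) (n : ℕ) :
    m (n + 1) * EE n (gH r) ≤ C * 10 ^ 20 * (r : ℝ) ^ 2 *
      (1 / ((n : ℝ) + 1 + (r : ℝ) ^ 2) - 1 / (((n + 1 : ℕ) : ℝ) + 1 + (r : ℝ) ^ 2)) := by
  have hr' : (1 : ℝ) ≤ r := by exact_mod_cast hr
  have hn : (0 : ℝ) ≤ n := Nat.cast_nonneg n
  set q : ℝ := (r : ℝ) ^ 2 with hq
  have hq1 : 1 ≤ q := one_le_pow₀ hr'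
  have e : 1 / ((n : ℝ) + 1 + q) - 1 / (((n + 1 : ℕ) : ℝ) + 1 + q) =
      1 / (((n : ℝ) + 1 + q) * ((n : ℝ) + 2 + q)) := by
    push_cast; field_simp; ring
  rw [e]
  have hm := h3 (n + 1) (by omega)
  push_cast at hm
  refine (mul_le_mul_of_nonneg_right hm (EE_nonneg (gH_nonneg r))).trans ?_
  by_cases h : n + 2 ≤ r ^ 2
  · have hr2 : 2 ≤ r := by
      by_contra hc
      have : r = 1 := by omega
      subst this; omega
    have h' : (n : ℝ) + 2 ≤ q := by rw [hq]; exact_mod_cast h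
    have h4 : EE n (gH r) ≤ 603 ^ 4 * 9 * 937500 * ((n : ℝ) + 1) ^ 3 / q := by
      refine (EgH_small hr2 n).trans ?_
      gcongr; linarith
    calc C / ((n : ℝ) + 1) ^ 3 * EE n (gH r)
        ≤ C / ((n : ℝ) + 1) ^ 3 * (603 ^ 4 * 9 * 937500 * ((n : ℝ) + 1) ^ 3 / q) := by gcongr
      _ = C * (4 * (603 ^ 4 * 9 * 937500)) * q * (1 / ((2 * q) * (2 * q))) := by field_simp; ring
      _ ≤ _ := by
        gcongr
        · norm_num
        · linarith
        · linarith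
  · have h' : q ≤ (n : ℝ) + 1 := by rw [hq]; exact_mod_cast (by omega : r ^ 2 ≤ n + 1)
    have h4 : EE n (gH r) ≤ 203 ^ 4 * 937501 * (2 * q * ((n : ℝ) + 1)) := by
      refine (EgH_large hr n).trans ?_
      have : (r : ℝ) ^ 4 = q * q := by rw [hq]; ring
      rw [this, ← hq]
      gcongr; nlinarith
    calc C / ((n : ℝ) + 1) ^ 3 * EE n (gH r)
        ≤ C / ((n : ℝ) + 1) ^ 3 * (203 ^ 4 * 937501 * (2 * q * ((n : ℝ) + 1))) := by gcongr
      _ = C * (12 * (203 ^ 4 * 937501)) * q * (1 / ((2 * ((n : ℝ) + 1)) * (3 * ((n : ℝ) + 1)))) := by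
        field_simp; ring
      _ ≤ _ := by
        gcongr
        · norm_num
        · linarith
        · linarith

lemma mass_HS {m : ℕ → ℝ} {C : ℝ} (h0 : ∀ l, 0 ≤ m l) (h1 : HasSum m 1) (hC : 0 < C)
    (h3 : ∀ l : ℕ, 1 ≤ l → m l ≤ C / (l : ℝ) ^ 3) (x : V) {r : ℕ} (hr : 1 ≤ r) :
    Mass m (HS x r) ≤ ENNReal.ofReal (C * 10 ^ 20) := by
  refine (mass_le h0 h1 (gH_nonneg r) (cnt_HS x r)).trans ?_
  refine ENNReal.tsum_le_of_sum_range_le fun N => ?_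
  rw [← ENNReal.ofReal_sum_of_nonneg fun n _ => mul_nonneg (h0 _) (EE_nonneg (gH_nonneg r))]
  refine ENNReal.ofReal_le_ofReal ((sum_le_sum fun n _ => term_le hC h3 hr n).trans ?_)
  rw [← mul_sum, sum_range_sub' (fun n : ℕ => 1 / ((n : ℝ) + 1 + (r : ℝ) ^ 2)), mul_assoc]
  refine mul_le_of_le_one_right (by positivity) ?_
  have h5 : 0 ≤ 1 / ((N : ℝ) + 1 + (r : ℝ) ^ 2) := by positivity
  have h6 : (r : ℝ) ^ 2 * (1 / (((0 : ℕ) : ℝ) + 1 + (r : ℝ) ^ 2)) ≤ 1 := by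
    rw [mul_one_div, div_le_one (by positivity)]; simp
  have h7 : 0 ≤ (r : ℝ) ^ 2 * (1 / ((N : ℝ) + 1 + (r : ℝ) ^ 2)) := by positivity
  rw [mul_sub]; linarith

end Pool.Agent.MP_52a2fa_pr.H50
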