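import Pool.Agent.MP_52a2fa_pr.H50.Mass

set_option autoImplicit false

namespace Pool.Agent.MP_52a2fa_pr.H50

open Finset MeasureTheory

/-- nearest neighbours -/
def nn (a b : V) : Prop := ∑ j : Fin 4, |a j - b j| = 1
/-- adjacency inside `O` -/
def adj (O : Set V) (a b : V) : Prop := a ∈ O ∧ b ∈ O ∧ nn a b
/-- connection inside `O` -/
def Conn (O : Set V) : V → V → Prop := Relation.ReflTransGen (adj O)
/-- `O` has an infinite component -/
def Perc (O : Set V) : Prop := ∃ y, {z | Conn O y z}.Infinite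
/-- sites covered by present worms with index in `S` -/
def occ {Ω : Type} (ξ : I → Ω → Bool) (S : Set I) (ω : Ω) : Set V :=
  {a | ∃ k ∈ S, ξ k ω = true ∧ a - k.1 ∈ k.2}

lemma nn_symm {a b : V} (h : nn a b) : nn b a := by
  unfold nn at *
  rw [← h]; exact sum_congr rfl fun j _ => abs_sub_comm _ _

lemma nn_ne {a b : V} (h : nn a b) : a ≠ b := by
  rintro rfl; simp [nn] at h

lemma nn_nrm {a b : V} (h : nn a b) : nrm (b - a) ≤ 1 := by
  rw [nrm_le]; intro j
  have : |a j - b j| ≤ 1 := h ▸ single_le_sum (f := fun j => |a j - b j|)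
    (fun i _ => abs_nonneg _) (mem_univ j)
  rw [abs_le] at this
  simp only [Pi.sub_apply]; omega

lemma nn_stp (a : V) (σ : St) : nn a (a + stp σ) := by
  obtain ⟨i, b⟩ := σ
  fin_cases i <;> cases b <;> simp [nn, stp, Fin.sum_univ_four]

lemma nn_finite (a : V) : {b | nn a b}.Finite :=
  (box a 1).finite_toSet.subset fun _ hb => mem_coe.2 (mem_box.2 (nn_nrm hb))

lemma reach_iff (O : Set V) (y z : V) :
    (SimpleGraph.fromRel (adj O)).Reachable y z ↔ Conn O y z := by
  rw [SimpleGraph.reachable_iff_reflTransGen, Conn]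
  have : (SimpleGraph.fromRel (adj O)).Adj = adj O := by
    ext a b
    rw [SimpleGraph.fromRel_adj]
    constructor
    · rintro ⟨-, h | h⟩
      · exact h
      · exact ⟨h.2.1, h.1, nn_symm h.2.2⟩
    · exact fun h => ⟨nn_ne h.2.2, Or.inl h⟩
  rw [this]

lemma Conn.mono {O O' : Set V} (h : O ⊆ O') {y z : V} (c : Conn O y z) : Conn O' y z := by
  induction c with
  | refl => exact .refl
  | tail _ h' ih => exact .tail ih ⟨h h'.1, h h'.2.1, h'.2.2⟩

lemma Conn.symm {O : Set V} {y z : V} (c : Conn O y z) : Conn O z y := by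
  induction c with
  | refl => exact .refl
  | tail _ h ih => exact .head ⟨h.2.1, h.1, nn_symm h.2.2⟩ ih

lemma Perc.mono {O O' : Set V} (h : O ⊆ O') (c : Perc O) : Perc O' := by
  obtain ⟨y, hy⟩ := c
  exact ⟨y, hy.mono fun z hz => Conn.mono h hz⟩

lemma Conn.exit {O O' : Set V} {p q a : V} {s : ℕ} (c : Conn O p q) (hp : nrm (p - a) ≤ s)
    (hq : s < nrm (q - a)) (h : ∀ z ∈ O, nrm (z - a) ≤ s + 1 → z ∈ O') :
    ∃ q', s < nrm (q' - a) ∧ Conn O' p q' := by
  induction c using Relation.ReflTransGen.head_induction_on with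
  | refl => omega
  | @head p c hpc _ ih =>
    have h1 := nn_nrm hpc.2.2
    have h2 := nrm_tri c p a
    have h3 : adj O' p c := ⟨h _ hpc.1 (by omega), h _ hpc.2.1 (by omega), hpc.2.2⟩
    by_cases hc : nrm (c - a) ≤ s
    · obtain ⟨q', h4, h5⟩ := ih hc
      exact ⟨q', h4, .head h3 h5⟩
    · exact ⟨c, by omega, .single h3⟩

lemma Conn.ivt {O : Set V} {p q a : V} {s : ℕ} (c : Conn O p q) (hp : nrm (p - a) ≤ s)
    (hq : s < nrm (q - a)) : ∃ p', nrm (p' - a) = s ∧ Conn O p' q := by
  induction c using Relation.ReflTransGen.head_induction_on with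
  | refl => omega
  | @head p c hpc hcq ih =>
    have h1 := nn_nrm hpc.2.2
    have h2 := nrm_tri c p a
    by_cases hc : nrm (c - a) ≤ s
    · exact ih hc
    · exact ⟨p, by omega, .head hpc hcq⟩

lemma Perc.of_finite {O O' F : Set V} (hF : F.Finite) (h : ∀ z ∈ O, z ∉ F → z ∈ O')
    (c : Perc O) : Perc O' := by
  by_contra hn
  simp only [Perc, not_exists, Set.not_infinite] at hn
  obtain ⟨y, hy⟩ := c
  refine hy ((((hn y).union hF).union (hF.biUnion fun f _ => (nn_finite f).biUnion
    fun b _ => hn b)).subset fun z hz => ?_)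
  simp only [Set.mem_union, Set.mem_iUnion, Set.mem_ofPred_eq] at hz ⊢
  induction hz with
  | refl => exact Or.inl (Or.inl .refl)
  | @tail z w _ hzw ih =>
    by_cases hw : w ∈ F
    · exact Or.inl (Or.inr hw)
    by_cases hz : z ∈ F
    · exact Or.inr ⟨z, hz, w, hzw.2.2, .refl⟩
    have h1 : adj O' z w := ⟨h _ hzw.1 hz, h _ hzw.2.1 hw, hzw.2.2⟩
    rcases ih with (h2 | h2) | ⟨f, hf, b, hb, h2⟩
    · exact Or.inl (Or.inl (.tail h2 h1))
    · exact absurd h2 hz
    · exact Or.inr ⟨f, hf, b, hb, .tail h2 h1⟩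

lemma conn_rng {O : Set V} (l : List St) (x : V) (h : ∀ a ∈ rng l, x + a ∈ O) :
    ∀ a ∈ rng l, Conn O x (x + a) := by
  induction l generalizing x with
  | nil => intro a ha; simp only [rng, mem_singleton] at ha; subst ha; simpa using .refl
  | cons σ l ih =>
    have h1 : ∀ a ∈ rng l, x + stp σ + a ∈ O := fun a ha => by
      rw [add_assoc]; exact h _ (by simp only [rng, mem_insert, mem_image]; exact Or.inr ⟨a, ha, rfl⟩)
    intro a ha
    simp only [rng, mem_insert, mem_image] at ha
    rcases ha with rfl | ⟨c, hc, rfl⟩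
    · simpa using .refl
    · refine .head (b := x + stp σ) ⟨?_, ?_, nn_stp x σ⟩ ?_
      · simpa using h 0 (zero_mem_rng _)
      · simpa using h1 0 (zero_mem_rng _)
      · rw [← add_assoc]; exact ih _ h1 c hc

/-- connection in exactly `n` steps -/
def ConnN (O : Set V) : ℕ → V → V → Prop
  | 0, y, z => y = z
  | n + 1, y, z => ∃ c, adj O y c ∧ ConnN O n c z

lemma conn_iff (O : Set V) (y z : V) : Conn O y z ↔ ∃ n, ConnN O n y z := by
  constructor
  · intro c
    induction c using Relation.ReflTransGen.head_induction_on with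
    | refl => exact ⟨0, rfl⟩
    | @head p c hpc _ ih =>
      obtain ⟨n, hn⟩ := ih
      exact ⟨n + 1, c, hpc, hn⟩
  · rintro ⟨n, hn⟩
    induction n generalizing y with
    | zero => cases hn; exact .refl
    | succ n ih =>
      obtain ⟨c, h1, h2⟩ := hn
      exact .head h1 (ih c h2)

section meas

variable {Ω : Type} [MeasurableSpace Ω] {O : Ω → Set V}

lemma meas_conn (h : ∀ a, Measurable fun ω => a ∈ O ω) (y z : V) :
    Measurable fun ω => Conn (O ω) y z := by
  simp only [conn_iff]
  refine Measurable.exists fun n => ?_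
  induction n generalizing y with
  | zero => exact measurable_const
  | succ n ih =>
    exact Measurable.exists fun c => ((h y).and ((h c).and measurable_const)).and (ih c)

lemma meas_perc (h : ∀ a, Measurable fun ω => a ∈ O ω) : Measurable fun ω => Perc (O ω) := by
  refine Measurable.exists fun y => ?_
  have e : ∀ ω, {z | Conn (O ω) y z}.Infinite ↔
      ∀ F : Finset V, ∃ z, Conn (O ω) y z ∧ z ∉ F := by
    intro ω
    constructor
    · intro hi F
      obtain ⟨z, h1, h2⟩ := hi.exists_notMem_finset F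
      exact ⟨z, h1, h2⟩
    · intro hi hf
      obtain ⟨z, h1, h2⟩ := hi hf.toFinset
      exact h2 (hf.mem_toFinset.2 h1)
  simp only [e]
  exact Measurable.forall fun F => Measurable.exists fun z =>
    (meas_conn h y z).and measurable_const

end meas

lemma meas_occ {Ω : Type} (ξ : I → Ω → Bool) (S : Set I) (a : V) :
    Measurable[sg ξ S] fun ω => a ∈ occ ξ S ω := by
  let _ : MeasurableSpace Ω := sg ξ S
  refine Measurable.exists fun k => ?_
  by_cases hk : k ∈ S
  · exact measurable_const.and ((measurableSet_setOfPred.1 (sg_meas hk true)).and measurable_const)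
  · simp [hk]

end Pool.Agent.MP_52a2fa_pr.H50
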