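import Pool.Agent.MP_52a2fa_pr.H50.Hit
import Pool.Agent.MP_52a2fa_pr.H50.Graph

set_option autoImplicit false

namespace Pool.Agent.MP_52a2fa_pr.H50

open Finset MeasureTheory ProbabilityTheory Filter
open scoped ENNReal

/-- good worms at scale `k` -/
def GG (k : ℕ) : Set I := {κ | nrm κ.1 ≤ 2 * ro k ∧ (∃ l, κ.2 = rng l) ∧ Hit k (tr κ.1 κ.2)}
/-- good worms at the next scale that hit `W` -/
def NN (k : ℕ) (W : Finset V) : Set I := {κ | κ ∈ GG (k + 1) ∧ ∃ a ∈ κ.2, κ.1 + a ∈ W}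

lemma Hit.mono {k : ℕ} {W W' : Finset V} (h : Hit k W) (hW : W ⊆ W') : Hit k W' :=
  le_trans h (hm_mono _ _ hW)

lemma eta_pos (k : ℕ) : 0 < eta k := by
  have := BB_pos k
  unfold eta; positivity

open Classical in
lemma EE_NN {k : ℕ} {W : Finset V} (hW : Hit k W) (j : ℕ) :
    eta k / 2 ≤ EE (64 ^ (k + 1) + (64 ^ (k + 1) + j))
      (fun l => (((box 0 (2 * ro (k + 1))).filter (fun y => (y, rng l) ∈ NN k W)).card : ℝ)) := by
  rw [EE_append]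
  have h1 : eta k / 2 ≤ EE (64 ^ (k + 1))
      (fun l => 2⁻¹ * ((FF (2 * ro (k + 1)) W l).card : ℝ)) := by
    rw [EE_mul]; unfold Hit hm at hW; linarith
  refine h1.trans (EE_mono fun l1 _ => ?_)
  rw [EE_append]
  have h2 : 2⁻¹ * ((FF (2 * ro (k + 1)) W l1).card : ℝ) ≤ EE (64 ^ (k + 1))
      (fun l2 => ∑ y ∈ FF (2 * ro (k + 1)) W l1,
        if Hit (k + 1) (tr (y + pos l1) (rng l2)) then (1 : ℝ) else 0) := by
    rw [EE_sum, mul_comm, ← nsmul_eq_mul]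
    refine card_nsmul_le_sum _ _ _ fun y hy => ?_
    rw [← one_div]
    exact prob_hit (k + 1) (mem_filter.1 hy).2.2
  refine h2.trans (EE_mono fun l2 _ => ?_)
  rw [← EE_const j (∑ y ∈ FF (2 * ro (k + 1)) W l1, _)]
  refine EE_mono fun l3 _ => ?_
  rw [sum_boole]
  refine Nat.cast_le.2 (card_le_card fun y hy => ?_)
  obtain ⟨hy, hH⟩ := mem_filter.1 hy
  obtain ⟨hb, ⟨a, ha, haW⟩, -⟩ := mem_filter.1 hy
  refine mem_filter.2 ⟨hb, ⟨by simpa [mem_box] using hb, ⟨_, rfl⟩, hH.mono fun z hz => ?_⟩,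
    a, mem_rng_append.2 (Or.inl ha), haW⟩
  obtain ⟨b, hb, rfl⟩ := mem_image.1 hz
  exact mem_image.2 ⟨pos l1 + b,
    mem_rng_append.2 (Or.inr ⟨b, mem_rng_append.2 (Or.inl hb), rfl⟩), by abel⟩

/-- rate at scale `k` -/
noncomputable def aa (c β : ℝ) (k : ℕ) : ℝ :=
  (64 : ℝ) ^ (k + 1) * (c * (3 * 64 ^ (k + 1)) ^ (-β) * (eta k / 2))

lemma aa_pos {c : ℝ} (hc : 0 < c) (β : ℝ) (k : ℕ) : 0 < aa c β k := by
  have := eta_pos k
  unfold aa; positivity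

variable {m : ℕ → ℝ} {c β : ℝ}

lemma mass_NN (h0 : ∀ l, 0 ≤ m l) (h1 : HasSum m 1) (hc : 0 < c) (hβ : 0 ≤ β)
    (hl : ∀ l : ℕ, 1 ≤ l → c * (l : ℝ) ^ (-β) ≤ m l) {k : ℕ} {W : Finset V} (hW : Hit k W) :
    ENNReal.ofReal (aa c β k / 2) < Mass m (NN k W) := by
  classical
  have ha := aa_pos hc β k
  refine lt_of_lt_of_le ((ENNReal.ofReal_lt_ofReal_iff ha).2 (by linarith)) ?_
  refine le_trans (ENNReal.ofReal_le_ofReal ?_) (mass_ge h0 h1
    (g := fun l => (((box 0 (2 * ro (k + 1))).filter (fun y => (y, rng l) ∈ NN k W)).card : ℝ))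
    (fun l => by positivity) (fun l => le_cnt fun y hy => (mem_filter.1 hy).2)
    (Ico (2 * 64 ^ (k + 1)) (3 * 64 ^ (k + 1))))
  refine le_trans (le_of_eq ?_) (card_nsmul_le_sum _ _
    (c * (3 * 64 ^ (k + 1)) ^ (-β) * (eta k / 2)) fun n hn => ?_)
  · rw [Nat.card_Ico, nsmul_eq_mul, aa, show 3 * 64 ^ (k + 1) - 2 * 64 ^ (k + 1) = 64 ^ (k + 1) by omega]
    push_cast; rfl
  · obtain ⟨h2, h3⟩ := mem_Ico.1 hn
    obtain ⟨j, rfl⟩ : ∃ j, n = 64 ^ (k + 1) + (64 ^ (k + 1) + j) := ⟨n - 2 * 64 ^ (k + 1), by omega⟩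
    refine mul_le_mul (le_trans ?_ (hl _ (by omega))) (EE_NN hW j) (by linarith [eta_pos k]) (h0 _)
    refine mul_le_mul_of_nonneg_left (Real.rpow_le_rpow_of_nonpos (by positivity) ?_ (by linarith)) hc.le
    exact_mod_cast h3

lemma small {q ε : ℝ} (hq : 1 < q) (hε : 0 < ε) : ∀ᶠ k : ℕ in atTop, (6 * (k : ℝ) + 8) ^ 3 ≤ ε * q ^ k := by
  have h := (tendsto_pow_const_div_const_pow_of_one_lt 3 hq).eventually
    (gt_mem_nhds (show 0 < ε / 14 ^ 3 by positivity))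
  filter_upwards [h, eventually_ge_atTop 1] with k h1 h2
  have h3 : (1 : ℝ) ≤ k := by exact_mod_cast h2
  rw [div_lt_div_iff₀ (by positivity) (by positivity)] at h1
  calc (6 * (k : ℝ) + 8) ^ 3 ≤ (k * 14) ^ 3 := by gcongr; linarith
    _ ≤ _ := by rw [mul_pow]; exact h1.le

lemma aa_ge (hc : 0 < c) (hβ : β < 3) {v : ℝ} (hv : 0 < v) :
    ∀ᶠ k : ℕ in atTop, 10 * (k : ℝ) ≤ v * (aa c β k / 2) := by
  have hq : (1 : ℝ) < 64 ^ (3 - β) := Real.one_lt_rpow (by norm_num) (by linarith)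
  have h3 : (0 : ℝ) < 3 ^ (-β) := by positivity
  filter_upwards [small hq (ε := v * c * 3 ^ (-β) / (2 * 4 * 64 * 16 * 32)) (by positivity)] with k hk
  have hB := BB_pos k
  set T : ℝ := 64 ^ (k + 1) with hT
  have hT0 : 0 < T := by positivity
  have e1 : T ^ 2 / (64 * 16 * BB k) ≤ eta k := by
    have : T ^ 2 / (64 * 16 * BB k) = 64 ^ k * 64 ^ (k + 1) / (16 * BB k) := by
      rw [hT]; field_simp; ring
    rw [this, eta]
    push_cast
    gcongr <;> linarith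
  have e2 : ((64 : ℝ) ^ (3 - β)) ^ k ≤ T ^ 3 * T ^ (-β) := by
    have : T ^ 3 * T ^ (-β) = ((64 : ℝ) ^ (3 - β)) ^ (k + 1) := by
      rw [← Real.rpow_natCast T 3, ← Real.rpow_add hT0, hT, ← Real.rpow_natCast _ (k + 1),
        ← Real.rpow_natCast _ (k + 1), ← Real.rpow_mul (by norm_num), ← Real.rpow_mul (by norm_num)]
      congr 1; push_cast; ring
    rw [this]
    exact pow_le_pow_right₀ hq.le (by omega)
  have e3 : T * (c * (3 ^ (-β) * T ^ (-β)) * (T ^ 2 / (64 * 16 * BB k) / 2)) ≤ aa c β k := by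
    rw [aa, ← hT, Real.mul_rpow (by norm_num) hT0.le]
    gcongr
  have hx : (0 : ℝ) < 6 * k + 8 := by positivity
  have e4 : (6 * (k : ℝ) + 8) ^ 3 ≤
      v * c * 3 ^ (-β) / (2 * 4 * 64 * 16 * 32) * (T ^ 3 * T ^ (-β)) := hk.trans (by gcongr)
  have e5 : v * (T * (c * (3 ^ (-β) * T ^ (-β)) * (T ^ 2 / (64 * 16 * BB k) / 2)) / 2) =
      2 * (v * c * 3 ^ (-β) / (2 * 4 * 64 * 16 * 32) * (T ^ 3 * T ^ (-β))) / (6 * k + 8) ^ 2 := by
    unfold BB; field_simp; ring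
  have e6 : 2 * (6 * (k : ℝ) + 8) ≤ 2 * (v * c * 3 ^ (-β) / (2 * 4 * 64 * 16 * 32) *
      (T ^ 3 * T ^ (-β))) / (6 * k + 8) ^ 2 := by
    rw [le_div_iff₀ (by positivity)]; nlinarith
  have e7 : v * (T * (c * (3 ^ (-β) * T ^ (-β)) * (T ^ 2 / (64 * 16 * BB k) / 2)) / 2) ≤
      v * (aa c β k / 2) := by gcongr
  have : (0 : ℝ) ≤ k := by positivity
  linarith

lemma not_hit (F : Finset V) : ∀ᶠ k : ℕ in atTop, ¬ Hit k F := by
  filter_upwards [small (q := 64) (ε := 1 / (16 * 32 * (F.card + 1))) (by norm_num) (by positivity)]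
    with k hk hH
  have h1 := le_trans hH (hm_le _ _ F)
  have hB := BB_pos k
  rw [eta, div_le_iff₀ (by positivity), mul_right_comm, mul_le_mul_iff_left₀ (by positivity)] at h1
  rw [one_div, inv_mul_eq_div, le_div_iff₀ (by positivity)] at hk
  unfold BB at h1
  push_cast at h1
  have h2 : (0 : ℝ) ≤ k := by positivity
  have h3 : (6 * (k : ℝ) + 8) ^ 2 ≤ (6 * (k : ℝ) + 8) ^ 3 := pow_le_pow_right₀ (by linarith) (by omega)
  have h4 : (0 : ℝ) ≤ F.card := by positivity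
  have h5 : (0 : ℝ) ≤ (6 * (k : ℝ) + 8) ^ 3 := by positivity
  nlinarith [mul_le_mul_of_nonneg_left h3 h4]

variable {Ω : Type} {ξ : I → Ω → Bool}

/-- no good worm at the next scale -/
def Eev (ξ : I → Ω → Bool) (k : ℕ) : Set Ω := {ω | ∀ κ ∈ GG (k + 1), ξ κ ω = false}
/-- a good worm is not hit at the next scale -/
def Fev (ξ : I → Ω → Bool) (k : ℕ) : Set Ω :=
  {ω | ∃ κ ∈ GG k, ξ κ ω = true ∧ ∀ κ' ∈ NN k (tr κ.1 κ.2), ξ κ' ω = false}

lemma conn_GG {ω : Ω} {k : ℕ} {κ : I} (h : κ ∈ GG k) (hκ : ξ κ ω = true) :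
    ∀ a ∈ κ.2, Conn (occ ξ Set.univ ω) κ.1 (κ.1 + a) := by
  obtain ⟨-, ⟨l, hl⟩, -⟩ := h
  rw [hl]
  exact conn_rng l κ.1 fun a ha => ⟨κ, trivial, hκ, by rwa [add_sub_cancel_left, hl]⟩

lemma perc_of {ω : Ω} (h : ∀ᶠ k in atTop, ω ∉ Eev ξ k ∪ Fev ξ k) : Perc (occ ξ Set.univ ω) := by
  obtain ⟨K, hK⟩ := eventually_atTop.1 h
  have h1 : ω ∉ Eev ξ K := fun h => hK K le_rfl (Or.inl h)
  simp only [Eev, Set.mem_ofPred_eq, not_forall, Bool.not_eq_false] at h1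
  obtain ⟨κ0, h1, h2⟩ := h1
  have key : ∀ k, K + 1 ≤ k → ∃ κ ∈ GG k, ξ κ ω = true ∧ Conn (occ ξ Set.univ ω) κ0.1 κ.1 := by
    intro k hk
    induction k, hk using Nat.le_induction with
    | base => exact ⟨κ0, h1, h2, .refl⟩
    | succ k hk ih =>
      obtain ⟨κ, h3, h4, h5⟩ := ih
      have h6 : ¬ ∀ κ' ∈ NN k (tr κ.1 κ.2), ξ κ' ω = false :=
        fun h => hK k (by omega) (Or.inr ⟨κ, h3, h4, h⟩)
      simp only [not_forall, Bool.not_eq_false] at h6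
      obtain ⟨κ', ⟨h7, a', ha', h8⟩, h9⟩ := h6
      obtain ⟨a, ha, h10⟩ := mem_image.1 h8
      have h11 := (conn_GG h7 h9 a' ha').symm
      rw [← h10] at h11
      exact ⟨κ', h7, h9, (h5.trans (conn_GG h3 h4 a ha)).trans h11⟩
  refine ⟨κ0.1, fun hf => ?_⟩
  obtain ⟨k, hk1, hk2⟩ := ((not_hit hf.toFinset).and (eventually_ge_atTop (K + 1))).exists
  obtain ⟨κ, h3, h4, h5⟩ := key k hk2
  refine hk1 (h3.2.2.mono fun z hz => hf.mem_toFinset.2 ?_)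
  obtain ⟨a, ha, rfl⟩ := mem_image.1 hz
  exact h5.trans (conn_GG h3 h4 a ha)

lemma exists_hit (k : ℕ) : ∃ W, Hit k W := by
  by_contra hc
  have h := prob_hit k (u := 0) (by simp)
  simp only [not_exists] at hc
  simp only [hc, if_false, EE_const] at h
  norm_num at h

lemma meas_none (S : Set I) : MeasurableSet[sg ξ S] {ω | ∀ κ ∈ S, ξ κ ω = false} := by
  have e : {ω | ∀ κ ∈ S, ξ κ ω = false} = ⋂ κ ∈ S, {ω | ξ κ ω = false} := by ext; simp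
  rw [e]
  exact MeasurableSet.biInter S.to_countable fun κ hκ => sg_meas hκ false

variable [MeasurableSpace Ω] {P : Measure Ω} [IsProbabilityMeasure P] {v : ℝ}

lemma EF_le (h0 : ∀ l, 0 ≤ m l) (h1 : HasSum m 1) (hc : 0 < c) (hβ : 0 ≤ β)
    (hl : ∀ l : ℕ, 1 ≤ l → c * (l : ℝ) ^ (-β) ≤ m l) (hv : 0 < v) (h : Model m v P ξ) (k : ℕ) :
    P (Eev ξ k ∪ Fev ξ k) ≤ ENNReal.ofReal
      ((1 + v * (2 * (2 * ro k) + 1 : ℕ) ^ 4) * Real.exp (-(v * (aa c β k / 2)))) := by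
  set e : ℝ := Real.exp (-(v * (aa c β k / 2))) with he
  have he0 : 0 < e := Real.exp_pos _
  have hN : ∀ W, Hit k W → P {ω | ∀ κ ∈ NN k W, ξ κ ω = false} ≤ ENNReal.ofReal e :=
    fun W hW => h.none_le hv.le h0 (mass_NN h0 h1 hc hβ hl hW)
  have hE : P (Eev ξ k) ≤ ENNReal.ofReal e := by
    obtain ⟨W, hW⟩ := exists_hit k
    refine le_trans (measure_mono ?_) (hN W hW)
    exact fun ω hω κ hκ => hω κ hκ.1
  have hF : P (Fev ξ k) ≤ ENNReal.ofReal v * ENNReal.ofReal e * Mass m (GG k) := by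
    have e1 : Fev ξ k = ⋃ κ, {ω | κ ∈ GG k ∧ ξ κ ω = true ∧
        ∀ κ' ∈ NN k (tr κ.1 κ.2), ξ κ' ω = false} := by ext; simp [Fev]
    rw [e1, Mass, ← ENNReal.tsum_mul_left]
    refine (measure_iUnion_le _).trans (ENNReal.tsum_le_tsum fun κ => ?_)
    by_cases hκ : κ ∈ GG k
    swap
    · simp [hκ]
    by_cases hn : κ ∈ NN k (tr κ.1 κ.2)
    · rw [Set.eq_empty_of_forall_notMem (s := {ω | κ ∈ GG k ∧ ξ κ ω = true ∧
        ∀ κ' ∈ NN k (tr κ.1 κ.2), ξ κ' ω = false}) fun ω hω => by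
          have := hω.2.2 κ hn
          rw [hω.2.1] at this; cases this]
      simp
    have e2 : {ω | κ ∈ GG k ∧ ξ κ ω = true ∧ ∀ κ' ∈ NN k (tr κ.1 κ.2), ξ κ' ω = false} =
        {ω | ξ κ ω = true} ∩ {ω | ∀ κ' ∈ NN k (tr κ.1 κ.2), ξ κ' ω = false} := by
      ext; simp [hκ]
    rw [e2, h.mul (S := {κ}) (T := NN k (tr κ.1 κ.2)) (Set.disjoint_singleton_left.2 hn)
      (sg_meas (Set.mem_singleton κ) true) (meas_none _), Set.indicator_of_mem hκ, mul_right_comm]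
    exact mul_le_mul' (h.one_le hv.le κ) (hN _ hκ.2.2)
  have hM : Mass m (GG k) ≤ ENNReal.ofReal ((box 0 (2 * ro k)).card : ℝ) :=
    mass_le_const h0 h1 fun κ hκ => by simpa [mem_box] using hκ.1
  rw [card_box] at hM
  refine (measure_union_le _ _).trans ((add_le_add hE (hF.trans (mul_le_mul' le_rfl hM))).trans
    (le_of_eq ?_))
  rw [← ENNReal.ofReal_mul hv.le, ← ENNReal.ofReal_mul (by positivity),
    ← ENNReal.ofReal_add he0.le (by positivity)]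
  congr 1; push_cast; ring

theorem supercritical (h0 : ∀ l, 0 ≤ m l) (h1 : HasSum m 1) (hc : 0 < c) (hβ : 0 ≤ β) (hβ3 : β < 3)
    (hl : ∀ l : ℕ, 1 ≤ l → c * (l : ℝ) ^ (-β) ≤ m l) (hv : 0 < v) (h : Model m v P ξ) :
    P {ω | Perc (occ ξ Set.univ ω)} ≠ 0 := by
  set b : ℕ → ℝ := fun k =>
    (1 + v * (2 * (2 * ro k) + 1 : ℕ) ^ 4) * Real.exp (-(v * (aa c β k / 2))) with hb
  have hb0 : ∀ k, 0 ≤ b k := fun k => by positivity
  have hs : Summable b := by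
    refine Summable.of_norm_bounded_eventually_nat
      ((summable_geometric_two).mul_left (1 + v * 65 ^ 4)) ?_
    filter_upwards [aa_ge hc hβ3 hv] with k hk
    rw [Real.norm_of_nonneg (hb0 k)]
    have h2 : (1 : ℝ) ≤ 8 ^ k := one_le_pow₀ (by norm_num)
    have h3 : ((2 * (2 * ro k) + 1 : ℕ) : ℝ) ≤ 65 * 8 ^ k := by
      unfold ro; push_cast; linarith
    have h4 : 1 + v * ((2 * (2 * ro k) + 1 : ℕ) : ℝ) ^ 4 ≤ (1 + v * 65 ^ 4) * 4096 ^ k := by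
      have h5 : ((2 * (2 * ro k) + 1 : ℕ) : ℝ) ^ 4 ≤ 65 ^ 4 * 4096 ^ k := by
        calc _ ≤ (65 * 8 ^ k : ℝ) ^ 4 := by gcongr
          _ = _ := by rw [mul_pow, ← pow_mul, mul_comm k 4, pow_mul]; norm_num
      have h6 : (1 : ℝ) ≤ 4096 ^ k := one_le_pow₀ (by norm_num)
      nlinarith
    have h7 : Real.exp (-(v * (aa c β k / 2))) ≤ (1 / 8192) ^ k := by
      have h8 : Real.exp (-10) ≤ 1 / 8192 := by
        have h9 : (8192 : ℝ) ≤ Real.exp 10 := by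
          have := Real.exp_one_gt_d9
          calc (8192 : ℝ) ≤ 2.7182818283 ^ 10 := by norm_num
            _ ≤ Real.exp 1 ^ 10 := by gcongr
            _ = _ := by rw [← Real.exp_nat_mul]; norm_num
        rw [Real.exp_neg, ← one_div]; gcongr
      calc _ ≤ Real.exp (k * (-10)) := Real.exp_le_exp.2 (by linarith)
        _ = Real.exp (-10) ^ k := Real.exp_nat_mul _ _
        _ ≤ _ := by gcongr
    calc b k ≤ (1 + v * 65 ^ 4) * 4096 ^ k * (1 / 8192) ^ k := by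
          exact mul_le_mul h4 h7 (Real.exp_pos _).le (by positivity)
      _ = _ := by rw [mul_assoc, ← mul_pow]; norm_num
  have hfin : ∑' k, P (Eev ξ k ∪ Fev ξ k) ≠ ∞ := by
    refine ne_top_of_le_ne_top ?_ (ENNReal.tsum_le_tsum fun k => EF_le h0 h1 hc hβ hl hv h k)
    rw [← ENNReal.ofReal_tsum_of_nonneg hb0 hs]
    exact ENNReal.ofReal_ne_top
  intro hz
  have h2 : ∀ᵐ ω ∂P, ¬ Perc (occ ξ Set.univ ω) := by
    rw [ae_iff]; simpa using hz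
  obtain ⟨ω, h3, h4⟩ := ((ae_eventually_notMem hfin).and h2).exists
  exact h4 (perc_of h3)

end Pool.Agent.MP_52a2fa_pr.H50
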