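import Pool.Agent.MP_52a2fa_pr.H50.Sub
import Pool.Agent.MP_52a2fa_pr.H50.Super

set_option autoImplicit false

namespace Pool.Agent.MP_52a2fa_pr.H50

open MeasureTheory ProbabilityTheory

lemma exists_model {m : ℕ → ℝ} (h0 : ∀ l, 0 ≤ m l) {v : ℝ} (hv : 0 ≤ v) :
    ∃ (Ω : Type) (_ : MeasurableSpace Ω) (P : Measure Ω) (_ : IsProbabilityMeasure P)
      (ξ : I → Ω → Bool), Model m v P ξ := by
  let p : I → ℝ := fun k => 1 - Real.exp (-(v * nu m k.2))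
  have hp0 : ∀ k, 0 ≤ p k := fun k => sub_nonneg.2
    (Real.exp_le_one_iff.2 (neg_nonpos.2 (mul_nonneg hv (nu_nonneg h0 _))))
  have hp1 : ∀ k, 0 ≤ 1 - p k := fun k => by
    simp only [p, sub_sub_cancel]; exact (Real.exp_pos _).le
  let μ : I → Measure Bool := fun k =>
    ENNReal.ofReal (p k) • Measure.dirac true + ENNReal.ofReal (1 - p k) • Measure.dirac false
  have hμ : ∀ k, IsProbabilityMeasure (μ k) := fun k => ⟨by
    simp only [μ, Measure.add_apply, Measure.smul_apply, measure_univ, smul_eq_mul, mul_one]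
    rw [← ENNReal.ofReal_add (hp0 k) (hp1 k)]; simp⟩
  obtain ⟨Ω, mΩ, P, X, h1, h2, h3, h4⟩ := exists_hasLaw_indepFun (fun _ : I => Bool) μ
  refine ⟨Ω, mΩ, P, h4, X, h1, h3, fun k => ?_⟩
  have e : P (X k ⁻¹' {true}) = μ k {true} := by
    rw [← (h2 k).map_eq, Measure.map_apply (h1 k) MeasurableSet.of_discrete]
  refine e.trans ?_
  simp [μ, p]

lemma perc_eq {Ω : Type} (ξ : I → Ω → Bool) :
    {ω | ∃ y : Fin 4 → ℤ,
      {z : Fin 4 → ℤ |
        (SimpleGraph.fromRel (fun a b : Fin 4 → ℤ =>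
          (∃ x : Fin 4 → ℤ, ∃ A : Finset (Fin 4 → ℤ), ξ (x, A) ω = true ∧ a - x ∈ A) ∧
          (∃ x : Fin 4 → ℤ, ∃ A : Finset (Fin 4 → ℤ), ξ (x, A) ω = true ∧ b - x ∈ A) ∧
          ∑ j : Fin 4, |a j - b j| = 1)).Reachable y z}.Infinite} =
      {ω | Perc (occ ξ Set.univ ω)} := by
  ext ω
  have e : (fun a b : Fin 4 → ℤ =>
      (∃ x : Fin 4 → ℤ, ∃ A : Finset (Fin 4 → ℤ), ξ (x, A) ω = true ∧ a - x ∈ A) ∧
      (∃ x : Fin 4 → ℤ, ∃ A : Finset (Fin 4 → ℤ), ξ (x, A) ω = true ∧ b - x ∈ A) ∧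
      ∑ j : Fin 4, |a j - b j| = 1) = adj (occ ξ Set.univ ω) := by
    ext a b
    simp [adj, occ, nn]
  simp only [Set.mem_ofPred_eq, e, reach_iff, Perc]

end Pool.Agent.MP_52a2fa_pr.H50
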