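import Pool.Agent.MP_52a2fa_pr.H50.Walk

set_option autoImplicit false

namespace Pool.Agent.MP_52a2fa_pr.H50

open Finset

/-- transition probabilities -/
noncomputable def pp (n : ℕ) (z : V) : ℝ := EE n (fun l => if pos l = z then 1 else 0)

lemma pp_nonneg (n : ℕ) (z : V) : 0 ≤ pp n z := EE_nonneg fun l => by split_ifs <;> norm_num

lemma pp_succ (n : ℕ) (z : V) : pp (n + 1) z = (∑ σ : St, pp n (z - stp σ)) / 8 := by
  simp only [pp, EE, pos_cons]
  congr 1
  refine sum_congr rfl fun σ _ => EE_congr fun l _ => ?_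
  simp only [eq_sub_iff_add_eq']

/-- reversal of a step -/
def flip : St ≃ St where
  toFun σ := (σ.1, !σ.2)
  invFun σ := (σ.1, !σ.2)
  left_inv σ := by simp
  right_inv σ := by simp

lemma stp_flip (σ : St) : stp (flip σ) = -stp σ := by
  obtain ⟨i, b⟩ := σ
  cases b <;> simp [stp, flip, Pi.single_neg]

lemma pp_neg (n : ℕ) (z : V) : pp n (-z) = pp n z := by
  induction n generalizing z with
  | zero => simp [pp, EE, eq_comm]
  | succ n ih =>
    rw [pp_succ, pp_succ, ← flip.sum_comp]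
    congr 1
    refine sum_congr rfl fun σ _ => ?_
    rw [stp_flip, ← ih (z - stp σ)]
    congr 1; abel

/-- the group algebra -/
abbrev Rg := AddMonoidAlgebra ℝ V

/-- point mass -/
noncomputable def tt (z : V) : Rg := AddMonoidAlgebra.single z 1

lemma tt_mul (a b : V) : tt a * tt b = tt (a + b) := by
  simp [tt, AddMonoidAlgebra.single_mul_single]

lemma tt_pow (a : V) (n : ℕ) : tt a ^ n = tt (n • a) := by
  simp [tt, AddMonoidAlgebra.single_pow]

lemma coeff_tt_mul (a : V) (g : Rg) (z : V) : (tt a * g).coeff z = g.coeff (z - a) := by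
  have := AddMonoidAlgebra.coeff_single_mul_add g (1 : ℝ) a (z - a)
  simpa [tt] using this

/-- one step law -/
noncomputable def mu : Rg := (1 / 8 : ℝ) • ∑ σ : St, tt (stp σ)

lemma pp_eq (n : ℕ) (z : V) : pp n z = (mu ^ n).coeff z := by
  induction n generalizing z with
  | zero =>
    simp only [pp, EE, pos_nil, pow_zero, AddMonoidAlgebra.one_def, AddMonoidAlgebra.coeff_single,
      Finsupp.single_apply]
    congr
  | succ n ih =>
    rw [pp_succ, pow_succ', mu, smul_mul_assoc, sum_mul, AddMonoidAlgebra.coeff_smul_apply,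
      AddMonoidAlgebra.coeff_sum, Finsupp.finsetSum_apply]
    simp only [coeff_tt_mul, ih, mu, smul_eq_mul]
    ring

/-- lazy step in direction `u` -/
noncomputable def half (u : V) : Rg := (1 / 2 : ℝ) • (tt u + 1)

lemma coeff_half_pow (u : V) (j : ℕ) (g : Rg) (z : V) :
    (half u ^ j * g).coeff z =
      ∑ a ∈ range (j + 1), ((j.choose a : ℝ) / 2 ^ j) * g.coeff (z - a • u) := by
  rw [half, smul_pow, add_pow, smul_mul_assoc, sum_mul, AddMonoidAlgebra.coeff_smul_apply,
    AddMonoidAlgebra.coeff_sum, Finsupp.finsetSum_apply, smul_eq_mul, mul_sum]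
  refine sum_congr rfl fun a _ => ?_
  rw [one_pow, mul_one, tt_pow, mul_assoc, coeff_tt_mul, ← nsmul_eq_mul,
    AddMonoidAlgebra.coeff_smul_apply, nsmul_eq_mul, one_div, inv_pow]
  field_simp

lemma cb_sq (n : ℕ) : n.centralBinom ^ 2 * (2 * n + 1) ≤ 16 ^ n := by
  induction n with
  | zero => simp
  | succ n ih =>
    have h := Nat.succ_mul_centralBinom_succ n
    have hpos : 0 < (n + 1) ^ 2 := by positivity
    refine Nat.le_of_mul_le_mul_left ?_ hpos
    calc (n + 1) ^ 2 * ((n + 1).centralBinom ^ 2 * (2 * (n + 1) + 1))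
        = ((n + 1) * (n + 1).centralBinom) ^ 2 * (2 * n + 3) := by ring
      _ = 4 * ((2 * n + 1) * (2 * n + 3)) * (n.centralBinom ^ 2 * (2 * n + 1)) := by rw [h]; ring
      _ ≤ 4 * (4 * (n + 1) ^ 2) * 16 ^ n := by
          refine Nat.mul_le_mul (Nat.mul_le_mul_left _ ?_) ih
          nlinarith
      _ = (n + 1) ^ 2 * 16 ^ (n + 1) := by ring

lemma choose_sq (j a : ℕ) : (j.choose a) ^ 2 * (j + 1) ≤ 2 * 4 ^ j := by
  rcases Nat.even_or_odd' j with ⟨n, rfl | rfl⟩
  · have h1 := Nat.choose_le_centralBinom a n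
    have h2 := cb_sq n
    have h3 : ((2 * n).choose a) ^ 2 ≤ n.centralBinom ^ 2 := Nat.pow_le_pow_left h1 2
    have h4 : 4 ^ (2 * n) = 16 ^ n := by rw [pow_mul]; norm_num
    rw [h4]
    nlinarith
  · have h1 : (2 * n + 1).choose a ≤ 2 * n.centralBinom := by
      cases a with
      | zero => have := n.centralBinom_pos; simp; omega
      | succ a =>
        rw [Nat.choose_succ_succ']
        have := Nat.choose_le_centralBinom a n
        have := Nat.choose_le_centralBinom (a + 1) n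
        omega
    have h2 := cb_sq n
    have h3 : ((2 * n + 1).choose a) ^ 2 ≤ (2 * n.centralBinom) ^ 2 := Nat.pow_le_pow_left h1 2
    have h4 : 4 ^ (2 * n + 1) = 4 * 16 ^ n := by rw [pow_succ, pow_mul]; norm_num; ring
    rw [h4]
    nlinarith

/-- bound for one binomial weight -/
noncomputable def bb (j : ℕ) : ℝ := Real.sqrt (2 / (j + 1))

lemma bb_nonneg (j : ℕ) : 0 ≤ bb j := Real.sqrt_nonneg _

lemma bb_mul (j : ℕ) : bb j * bb j = 2 / (j + 1) := Real.mul_self_sqrt (by positivity)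

lemma choose_le_bb (j a : ℕ) : (j.choose a : ℝ) / 2 ^ j ≤ bb j := by
  refine Real.le_sqrt_of_sq_le ?_
  have h : ((j.choose a : ℝ)) ^ 2 * (j + 1) ≤ 2 * 4 ^ j := by exact_mod_cast choose_sq j a
  rw [div_pow, div_le_div_iff₀ (by positivity) (by positivity), ← pow_mul, mul_comm j 2, pow_mul]
  norm_num; linarith

/-- bounded coefficients, support orthogonal to `S` -/
def Good (g : Rg) (c : ℝ) (S : Set V) : Prop :=
  (∀ z, 0 ≤ g.coeff z ∧ g.coeff z ≤ c) ∧ ∀ w ∈ S, ∀ z, g.coeff z ≠ 0 → w ⬝ᵥ z = 0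

lemma good_one (S : Set V) : Good 1 1 S := by
  refine ⟨fun z => ?_, fun w _ z hz => ?_⟩
  · simp only [AddMonoidAlgebra.one_def, AddMonoidAlgebra.coeff_single, Finsupp.single_apply]
    split_ifs <;> norm_num
  · simp only [AddMonoidAlgebra.one_def, AddMonoidAlgebra.coeff_single, Finsupp.single_apply] at hz
    have : 0 = z := by by_contra h; simp [h] at hz
    simp [← this]

lemma good_step {g : Rg} {c : ℝ} {S S' : Set V} (h : Good g c S) {u : V} (hu : u ∈ S)
    (hu0 : u ⬝ᵥ u ≠ 0) (hS : S' ⊆ S) (hS' : ∀ w ∈ S', w ⬝ᵥ u = 0) (j : ℕ) :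
    Good (half u ^ j * g) (bb j * c) S' := by
  have hc : 0 ≤ c := (h.1 0).1.trans (h.1 0).2
  refine ⟨fun z => ⟨?_, ?_⟩, fun w hw z hz => ?_⟩
  · rw [coeff_half_pow]
    exact sum_nonneg fun a _ => mul_nonneg (by positivity) (h.1 _).1
  · rw [coeff_half_pow]
    by_cases h0 : ∀ a ∈ range (j + 1), g.coeff (z - a • u) = 0
    · rw [sum_eq_zero fun a ha => by rw [h0 a ha, mul_zero]]
      exact mul_nonneg (bb_nonneg j) hc
    · push Not at h0
      obtain ⟨a, ha, ha0⟩ := h0
      rw [sum_eq_single_of_mem a ha]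
      · exact mul_le_mul (choose_le_bb j a) (h.1 _).2 (h.1 _).1 (bb_nonneg j)
      · intro b _ hb
        by_contra hne
        have hb0 : g.coeff (z - b • u) ≠ 0 := fun h' => hne (by rw [h', mul_zero])
        have e1 := h.2 u hu _ ha0
        have e2 := h.2 u hu _ hb0
        rw [dotProduct_sub, dotProduct_smul, nsmul_eq_mul] at e1 e2
        have : (b : ℤ) * (u ⬝ᵥ u) = a * (u ⬝ᵥ u) := by linarith
        exact hb (by exact_mod_cast mul_right_cancel₀ hu0 this)
  · rw [coeff_half_pow] at hz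
    obtain ⟨a, _, ha⟩ := exists_ne_zero_of_sum_ne_zero hz
    have e1 := h.2 w (hS hw) _ (right_ne_zero_of_mul ha)
    rwa [dotProduct_sub, dotProduct_smul, hS' w hw, smul_zero, sub_zero] at e1

/-- the four diagonal directions -/
def u1 : V := ![1, 1, 0, 0]
def u2 : V := ![1, -1, 0, 0]
def u3 : V := ![0, 0, 1, 1]
def u4 : V := ![0, 0, 1, -1]

lemma prod_bound (j i : ℕ) (z : V) :
    (half u1 ^ j * (half u2 ^ j * (half u3 ^ i * (half u4 ^ i * 1)))).coeff z ≤
      4 / ((j + 1) * (i + 1)) := by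
  have h4 := good_step (good_one {u1, u2, u3, u4}) (u := u4) (S' := {u1, u2, u3}) (by simp)
    (by decide) (by intro x; simp; tauto) (by intro w hw; rcases hw with rfl | rfl | rfl <;> decide) i
  have h3 := good_step h4 (u := u3) (S' := {u1, u2}) (by simp)
    (by decide) (by intro x; simp; tauto) (by intro w hw; rcases hw with rfl | rfl <;> decide) i
  have h2 := good_step h3 (u := u2) (S' := {u1}) (by simp)
    (by decide) (by intro x; simp; tauto) (by intro w hw; rcases hw with rfl; decide) j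
  have h1 := good_step h2 (u := u1) (S' := ∅) (by simp)
    (by decide) (by simp) (by simp) j
  refine (h1.1 z).2.trans (le_of_eq ?_)
  rw [mul_one, bb_mul, ← mul_assoc, bb_mul]
  field_simp; norm_num

lemma mu_eq : mu = (1 / 2 : ℝ) • (tt ![-1, 0, 0, 0] * (half u1 * half u2) +
    tt ![0, 0, -1, 0] * (half u3 * half u4)) := by
  have e : ∀ a u v : V, tt a * (half u * half v) =
      (1 / 4 : ℝ) • (tt (a + (u + v)) + tt (a + u) + tt (a + v) + tt a) := by
    intro a u v
    rw [half, half, smul_mul_smul_comm, mul_smul_comm]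
    simp only [← tt_mul]
    congr 1
    · norm_num
    · ring
  rw [e, e, ← smul_add, smul_smul, mu, Fintype.sum_prod_type, Fin.sum_univ_four]
  simp only [Fintype.sum_bool]
  have a1 : stp (0, true) = ![-1, 0, 0, 0] + (u1 + u2) := by decide
  have a2 : stp (0, false) = ![-1, 0, 0, 0] := by decide
  have a3 : stp (1, true) = ![-1, 0, 0, 0] + u1 := by decide
  have a4 : stp (1, false) = ![-1, 0, 0, 0] + u2 := by decide
  have a5 : stp (2, true) = ![0, 0, -1, 0] + (u3 + u4) := by decide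
  have a6 : stp (2, false) = ![0, 0, -1, 0] := by decide
  have a7 : stp (3, true) = ![0, 0, -1, 0] + u3 := by decide
  have a8 : stp (3, false) = ![0, 0, -1, 0] + u4 := by decide
  rw [a1, a2, a3, a4, a5, a6, a7, a8]
  congr 1
  · norm_num
  · abel

lemma choose_id (k j : ℕ) (h : j ≤ k) :
    (k.choose j : ℝ) * (4 / ((j + 1) * ((k - j : ℕ) + 1))) =
      4 / ((k + 1) * (k + 2)) * ((k + 2).choose (j + 1) : ℝ) := by
  have h1 : (k.choose j : ℝ) * (k + 1) = ((k + 1).choose j : ℝ) * ((k - j : ℕ) + 1) := by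
    have := Nat.choose_mul_succ_eq k j
    rw [show k + 1 - j = (k - j) + 1 by omega] at this
    exact_mod_cast this
  have h2 : ((k : ℝ) + 2) * ((k + 1).choose j : ℝ) = ((k + 2).choose (j + 1) : ℝ) * (j + 1) := by
    have := Nat.add_one_mul_choose_eq (k + 1) j
    exact_mod_cast this
  field_simp
  linear_combination (k + 2) * h1 + (((k - j : ℕ) : ℝ) + 1) * h2

/-- local bound in dimension four -/
lemma pp_le (k : ℕ) (z : V) : pp k z ≤ 16 / ((k + 1) * (k + 1)) := by
  rw [pp_eq, mu_eq, smul_pow, add_pow, AddMonoidAlgebra.coeff_smul_apply,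
    AddMonoidAlgebra.coeff_sum, Finsupp.finsetSum_apply, smul_eq_mul]
  have h1 : ∀ j ∈ range (k + 1), ((tt ![-1, 0, 0, 0] * (half u1 * half u2)) ^ j *
      (tt ![0, 0, -1, 0] * (half u3 * half u4)) ^ (k - j) * (k.choose j : Rg)).coeff z ≤
      4 / ((k + 1) * (k + 2)) * ((k + 2).choose (j + 1) : ℝ) := by
    intro j hj
    have e : (tt ![-1, 0, 0, 0] * (half u1 * half u2)) ^ j *
      (tt ![0, 0, -1, 0] * (half u3 * half u4)) ^ (k - j) * (k.choose j : Rg) =
      (k.choose j) • (tt (j • ![-1, 0, 0, 0] + (k - j) • ![0, 0, -1, 0]) *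
        (half u1 ^ j * (half u2 ^ j * (half u3 ^ (k - j) * (half u4 ^ (k - j) * 1))))) := by
      rw [← tt_mul, ← tt_pow, ← tt_pow, nsmul_eq_mul]; ring
    rw [e, AddMonoidAlgebra.coeff_smul_apply, nsmul_eq_mul, coeff_tt_mul,
      ← choose_id k j (by simpa [Nat.lt_succ_iff] using hj)]
    exact mul_le_mul_of_nonneg_left (prod_bound _ _ _) (by positivity)
  have h2 : ∑ j ∈ range (k + 1), ((k + 2).choose (j + 1) : ℝ) ≤ 2 ^ (k + 2) := by
    have h3 := Nat.sum_range_choose (k + 2)
    rw [sum_range_succ, sum_range_succ'] at h3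
    have : ∑ j ∈ range (k + 1), (k + 2).choose (j + 1) ≤ 2 ^ (k + 2) := by omega
    exact_mod_cast this
  have h4 := sum_le_sum h1
  rw [← mul_sum] at h4
  have h5 : (4 : ℝ) / ((k + 1) * (k + 2)) * ∑ j ∈ range (k + 1), ((k + 2).choose (j + 1) : ℝ) ≤
      4 / ((k + 1) * (k + 1)) * 2 ^ (k + 2) := by
    refine mul_le_mul ?_ h2 (by positivity) (by positivity)
    gcongr; norm_num
  refine (mul_le_mul_of_nonneg_left (h4.trans h5) (by positivity)).trans (le_of_eq ?_)
  rw [one_div, inv_pow, pow_add]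
  field_simp; norm_num

end Pool.Agent.MP_52a2fa_pr.H50
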