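import Pool.Agent.MP_52a2fa_pr.H50.Moments
import Pool.Agent.MP_52a2fa_pr.H50.Local

set_option autoImplicit false

namespace Pool.Agent.MP_52a2fa_pr.H50

open Finset

lemma sum_inj_le {φ : ℕ → ℝ} (hφ : ∀ a, 0 ≤ φ a) {N : ℕ} {A : Finset ℕ} {g : ℕ → ℕ}
    (hg : Set.InjOn g A) (hN : ∀ x ∈ A, g x < N) : ∑ x ∈ A, φ (g x) ≤ ∑ a ∈ range N, φ a := by
  rw [← sum_image hg]
  refine sum_le_sum_of_subset_of_nonneg (fun a ha => ?_) fun a _ _ => hφ a
  obtain ⟨x, hx, rfl⟩ := mem_image.1 ha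
  exact mem_range.2 (hN x hx)

lemma sum_dist_le {φ : ℕ → ℝ} (hφ : ∀ a, 0 ≤ φ a) {N t : ℕ} (ht : t < N) :
    ∑ s ∈ range N, φ (Nat.dist t s) ≤ 2 * ∑ a ∈ range N, φ a := by
  rw [← sum_filter_add_sum_filter_not (range N) (fun s => t ≤ s), two_mul]
  refine add_le_add (sum_inj_le hφ ?_ ?_) (sum_inj_le hφ ?_ ?_)
  · intro a ha b hb h
    simp only [coe_filter, mem_range, Set.mem_ofPred_eq, Nat.dist] at ha hb h; omega
  · intro a ha
    simp only [mem_filter, mem_range, Nat.dist] at ha ⊢; omega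
  · intro a ha b hb h
    simp only [coe_filter, mem_range, Set.mem_ofPred_eq, Nat.dist] at ha hb h; omega
  · intro a ha
    simp only [mem_filter, mem_range, Nat.dist] at ha ⊢; omega

lemma harm_le {N j : ℕ} (h : N ≤ 2 ^ j) : ∑ a ∈ range N, 1 / ((a : ℝ) + 1) ≤ j + 1 := by
  have h1 := harmonic_le_one_add_log N
  have h2 : (harmonic N : ℝ) = ∑ a ∈ range N, 1 / ((a : ℝ) + 1) := by
    simp [harmonic]
  have h3 : Real.log N ≤ j := by
    rcases Nat.eq_zero_or_pos N with rfl | hN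
    · simp
    · calc Real.log N ≤ Real.log (2 ^ j) :=
            Real.log_le_log (by exact_mod_cast hN) (by exact_mod_cast h)
        _ = j * Real.log 2 := by rw [Real.log_pow]
        _ ≤ j := mul_le_of_le_one_right (by positivity) (by linarith [Real.log_two_lt_d9])
  linarith

lemma EE_inc_eq {n t t' : ℕ} (h : t ≤ n) (h' : t' ≤ n) (z : V) :
    EE n (fun l => if pos (l.take t') - pos (l.take t) = z then 1 else 0) =
      pp (Nat.dist t t') z := by
  rcases le_total t t' with hle | hle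
  · rw [EE_inc hle h' (fun a => if a = z then 1 else 0), Nat.dist_eq_sub_of_le hle]; rfl
  · rw [Nat.dist_eq_sub_of_le_right hle, ← pp_neg, pp,
      ← EE_inc hle h (fun a => if a = -z then 1 else 0)]
    refine EE_congr fun l _ => if_congr ?_ rfl rfl
    constructor <;> intro h <;> linear_combination -h

lemma EE_pp_le (a b : ℕ) :
    EE b (fun l => pp a (pos l)) ≤ 16 * (1 / ((a : ℝ) + 1)) * (1 / ((b : ℝ) + 1)) := by
  have e : (16 : ℝ) * (1 / ((a : ℝ) + 1)) * (1 / ((b : ℝ) + 1)) = 16 / ((a + 1) * (b + 1)) := by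
    field_simp
  rw [e]
  rcases le_total b a with h | h
  · refine (EE_le_const fun l _ => pp_le a _).trans ?_
    gcongr
  · have : EE b (fun l => pp a (pos l)) = EE a (fun l => pp b (pos l)) := by
      simp only [pp]
      rw [EE_comm]
      simp only [eq_comm]
    rw [this]
    refine (EE_le_const fun l _ => pp_le b _).trans ?_
    gcongr

lemma EE_pp_inc {n s s' : ℕ} (h : s ≤ n) (h' : s' ≤ n) (a : ℕ) :
    EE n (fun l => pp a (pos (l.take s') - pos (l.take s))) ≤
      16 * (1 / ((a : ℝ) + 1)) * (1 / ((Nat.dist s s' : ℝ) + 1)) := by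
  rcases le_total s s' with hle | hle
  · rw [EE_inc hle h' (pp a), Nat.dist_eq_sub_of_le hle]; exact EE_pp_le _ _
  · have : ∀ l : List St, pp a (pos (l.take s') - pos (l.take s)) =
        pp a (pos (l.take s) - pos (l.take s')) := fun l => by rw [← pp_neg, neg_sub]
    simp only [this]
    rw [EE_inc hle h (pp a), Nat.dist_eq_sub_of_le_right hle]; exact EE_pp_le _ _

/-- Green energy of a path -/
noncomputable def JJ (S T : ℕ) (w : List St) : ℝ :=
  ∑ s ∈ range (S + 1), ∑ s' ∈ range (S + 1), ∑ a ∈ range (T + 1),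
    pp a (pos (w.take s') - pos (w.take s))

lemma JJ_nonneg (S T : ℕ) (w : List St) : 0 ≤ JJ S T w :=
  sum_nonneg fun _ _ => sum_nonneg fun _ _ => sum_nonneg fun _ _ => pp_nonneg _ _

lemma EJ_le {S T : ℕ} {h : ℝ} (hS : ∑ a ∈ range (S + 1), 1 / ((a : ℝ) + 1) ≤ h)
    (hT : ∑ a ∈ range (T + 1), 1 / ((a : ℝ) + 1) ≤ h) :
    EE S (JJ S T) ≤ (S + 1) * (32 * h ^ 2) := by
  have h0 : 0 ≤ h := le_trans (sum_nonneg fun a _ => by positivity) hS
  unfold JJ
  rw [EE_sum]
  refine (sum_le_card_nsmul _ _ (32 * h ^ 2) fun s hs => ?_).trans (by simp)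
  rw [EE_sum]
  have h1 : ∀ s' ∈ range (S + 1), EE S (fun w => ∑ a ∈ range (T + 1),
      pp a (pos (w.take s') - pos (w.take s))) ≤ 16 * h * (1 / ((Nat.dist s s' : ℝ) + 1)) := by
    intro s' hs'
    rw [EE_sum]
    refine (sum_le_sum fun a _ => EE_pp_inc (Nat.lt_succ_iff.1 (mem_range.1 hs))
      (Nat.lt_succ_iff.1 (mem_range.1 hs')) a).trans ?_
    rw [← sum_mul, ← mul_sum]
    gcongr
  refine (sum_le_sum h1).trans ?_
  rw [← mul_sum]
  have h2 := sum_dist_le (φ := fun a => 1 / ((a : ℝ) + 1)) (fun a => by positivity) (mem_range.1 hs)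
  have h3 : 16 * h * ∑ s' ∈ range (S + 1), 1 / ((Nat.dist s s' : ℝ) + 1) ≤ 16 * h * (2 * h) := by
    gcongr; linarith
  linarith

lemma second_moment {ι : Type} (Q : Finset ι) (f : ι → V) (F : Finset V) (hF : ∀ q ∈ Q, f q ∈ F)
    {θ : ℝ} (hθ : 0 < θ) :
    Q.card / θ - (∑ q ∈ Q, ∑ q' ∈ Q, if f q = f q' then (1 : ℝ) else 0) / (4 * θ ^ 2) ≤ F.card := by
  have e1 : (Q.card : ℝ) = ∑ y ∈ F, ((Q.filter (fun q => f q = y)).card : ℝ) := by
    exact_mod_cast card_eq_sum_card_fiberwise hF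
  have e2 : (∑ q ∈ Q, ∑ q' ∈ Q, if f q = f q' then (1 : ℝ) else 0) =
      ∑ y ∈ F, ((Q.filter (fun q => f q = y)).card : ℝ) ^ 2 := by
    rw [← sum_fiberwise_of_maps_to hF]
    refine sum_congr rfl fun y _ => ?_
    rw [sum_congr rfl (g := fun _ => ((Q.filter (fun q => f q = y)).card : ℝ))]
    · simp [sq]
    · intro q hq
      rw [(mem_filter.1 hq).2, card_filter]
      push_cast
      simp only [eq_comm]
  rw [e1, e2, sum_div, sum_div, ← sum_sub_distrib]
  refine (sum_le_card_nsmul _ _ 1 fun y _ => ?_).trans (by simp)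
  set x : ℝ := ((Q.filter (fun q => f q = y)).card : ℝ)
  have : x / θ - x ^ 2 / (4 * θ ^ 2) = 1 - (x / (2 * θ) - 1) ^ 2 := by field_simp; ring
  rw [this]; linarith [sq_nonneg (x / (2 * θ) - 1)]

/-- starting points from which the walk hits `W` and ends nearby -/
noncomputable def FF (R : ℕ) (W : Finset V) (l : List St) : Finset V :=
  (box 0 R).filter (fun y => (∃ a ∈ rng l, y + a ∈ W) ∧ nrm (y + pos l) ≤ 2 * R)

/-- hitting mass -/
noncomputable def hm (T R : ℕ) (W : Finset V) : ℝ := EE T (fun l => ((FF R W l).card : ℝ))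

lemma hm_mono (T R : ℕ) {W W' : Finset V} (h : W ⊆ W') : hm T R W ≤ hm T R W' := by
  refine EE_mono fun l _ => Nat.cast_le.2 (card_le_card fun y hy => ?_)
  simp only [FF, mem_filter] at hy ⊢
  obtain ⟨h1, ⟨a, ha, h2⟩, h3⟩ := hy
  exact ⟨h1, ⟨a, ha, h h2⟩, h3⟩

lemma hm_le (T R : ℕ) (W : Finset V) : hm T R W ≤ W.card * (T + 1) := by
  refine EE_le_const fun l hl => ?_
  have h1 : FF R W l ⊆ (W ×ˢ rng l).image (fun q => q.1 - q.2) := by
    intro y hy
    obtain ⟨-, ⟨a, ha, h2⟩, -⟩ := mem_filter.1 hy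
    exact mem_image.2 ⟨(y + a, a), mem_product.2 ⟨h2, ha⟩, by simp⟩
  have h2 := (card_le_card h1).trans card_image_le
  rw [card_product] at h2
  have h3 := card_rng_le l
  rw [hl] at h3
  exact_mod_cast h2.trans (Nat.mul_le_mul_left _ h3)

lemma hm_ge {S T ρ : ℕ} {u : V} {w : List St} {W : Finset V}
    (hW : ∀ a ∈ rng w, u + a ∈ W) (hu : ∀ a ∈ rng w, nrm (u + a) ≤ ρ)
    (hT : EE T (fun l => if dd l ≤ ρ then (0 : ℝ) else 1) ≤ 1 / 4) {θ : ℝ} (hθ : 0 < θ) :
    3 / 4 * ((S + 1) * (T + 1) / θ) - (T + 1) * (2 * JJ S T w) / (4 * θ ^ 2) ≤ hm T (2 * ρ) W := by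
  set N2 : List St → ℝ := fun l => ∑ q ∈ range (S + 1) ×ˢ range (T + 1),
    ∑ q' ∈ range (S + 1) ×ˢ range (T + 1),
      if pos (l.take q'.2) - pos (l.take q.2) = pos (w.take q'.1) - pos (w.take q.1)
        then (1 : ℝ) else 0 with hN2
  have h1 : EE T (fun l => ((S + 1) * (T + 1) / θ -
      (S + 1) * (T + 1) / θ * (if dd l ≤ ρ then (0 : ℝ) else 1)) - (4 * θ ^ 2)⁻¹ * N2 l) ≤
      hm T (2 * ρ) W := by
    refine EE_mono fun l _ => ?_
    have hN : 0 ≤ N2 l := sum_nonneg fun _ _ => sum_nonneg fun _ _ => by split_ifs <;> norm_num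
    split_ifs with hd
    · have h2 := second_moment (range (S + 1) ×ˢ range (T + 1))
        (fun q => u + pos (w.take q.1) - pos (l.take q.2)) (FF (2 * ρ) W l) (fun q _ => by
          have a1 := hu _ (pos_take_mem_rng w q.1)
          have a2 := nrm_le_dd (pos_take_mem_rng l q.2)
          have a3 := nrm_le_dd (pos_mem_rng l)
          have a4 := nrm_sub (u + pos (w.take q.1)) (pos (l.take q.2))
          have a5 := nrm_add (u + pos (w.take q.1) - pos (l.take q.2)) (pos l)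
          refine mem_filter.2 ⟨by rw [mem_box, sub_zero]; omega, ⟨_, pos_take_mem_rng l q.2, ?_⟩,
            by omega⟩
          rw [sub_add_cancel]; exact hW _ (pos_take_mem_rng w q.1)) hθ
      have e : ∀ q q' : ℕ × ℕ, (u + pos (w.take q.1) - pos (l.take q.2) =
          u + pos (w.take q'.1) - pos (l.take q'.2)) ↔
          (pos (l.take q'.2) - pos (l.take q.2) = pos (w.take q'.1) - pos (w.take q.1)) := by
        intro q q'
        constructor <;> intro h <;> linear_combination h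
      simp only [e, card_product, card_range] at h2
      push_cast at h2
      rw [mul_zero, sub_zero, inv_mul_eq_div]
      exact h2
    · have : 0 ≤ (4 * θ ^ 2)⁻¹ * N2 l := by positivity
      have : (0 : ℝ) ≤ (FF (2 * ρ) W l).card := by positivity
      linarith
  rw [EE_sub, EE_sub, EE_const, EE_mul, EE_mul] at h1
  have h3 : EE T N2 ≤ (T + 1) * (2 * JJ S T w) := by
    have e : EE T N2 = ∑ s ∈ range (S + 1), ∑ t ∈ range (T + 1), ∑ s' ∈ range (S + 1),
        ∑ t' ∈ range (T + 1), pp (Nat.dist t t') (pos (w.take s') - pos (w.take s)) := by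
      rw [hN2, EE_sum, sum_product]
      refine sum_congr rfl fun s _ => sum_congr rfl fun t ht => ?_
      rw [EE_sum, sum_product]
      refine sum_congr rfl fun s' _ => sum_congr rfl fun t' ht' => ?_
      exact EE_inc_eq (Nat.lt_succ_iff.1 (mem_range.1 ht)) (Nat.lt_succ_iff.1 (mem_range.1 ht')) _
    rw [e, JJ, mul_sum, mul_sum]
    refine sum_le_sum fun s _ => ?_
    refine (sum_le_card_nsmul _ _ (2 * ∑ s' ∈ range (S + 1), ∑ a ∈ range (T + 1),
      pp a (pos (w.take s') - pos (w.take s))) fun t ht => ?_).trans (by simp)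
    rw [mul_sum]
    exact sum_le_sum fun s' _ => sum_dist_le (φ := fun a => pp a _) (fun a => pp_nonneg _ _)
      (mem_range.1 ht)
  have h4 : (4 * θ ^ 2)⁻¹ * EE T N2 ≤ (T + 1) * (2 * JJ S T w) / (4 * θ ^ 2) := by
    rw [inv_mul_eq_div]; gcongr
  have h5 : (S + 1) * (T + 1) / θ * EE T (fun l => if dd l ≤ ρ then (0 : ℝ) else 1) ≤
      (S + 1) * (T + 1) / θ * (1 / 4) := by gcongr
  linarith

/-- translate of a shape -/
def tr (x : V) (A : Finset V) : Finset V := A.image (fun a => x + a)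

/-- space scale -/
def ro (k : ℕ) : ℕ := 16 * 8 ^ k
/-- logarithmic loss -/
noncomputable def BB (k : ℕ) : ℝ := 32 * (6 * (k : ℝ) + 8) ^ 2
/-- hitting threshold -/
noncomputable def eta (k : ℕ) : ℝ := ((64 ^ k : ℕ) + 1) * ((64 ^ (k + 1) : ℕ) + 1) / (16 * BB k)
/-- sets that are easy to hit at the next scale -/
def Hit (k : ℕ) (W : Finset V) : Prop := eta k ≤ hm (64 ^ (k + 1)) (2 * ro (k + 1)) W

lemma BB_pos (k : ℕ) : 0 < BB k := by unfold BB; positivity

lemma tail_le (k : ℕ) : EE (64 ^ k) (fun l => if dd l ≤ ro k then (0 : ℝ) else 1) ≤ 1 / 4 := by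
  refine (dd_tail _ _ (by unfold ro; positivity)).trans ?_
  have e : ((64 ^ k : ℕ) : ℝ) ^ 3 = ((8 : ℝ) ^ k) ^ 6 := by
    push_cast
    rw [← pow_mul, ← pow_mul, mul_comm k 3, mul_comm k 6, pow_mul, pow_mul]; norm_num
  rw [e, ro]
  push_cast
  rw [mul_pow, div_le_iff₀ (by positivity)]
  have : 0 ≤ ((8 : ℝ) ^ k) ^ 6 := by positivity
  nlinarith

open Classical in
lemma prob_hit (k : ℕ) {u : V} (hu : nrm u ≤ 2 * (2 * ro k)) :
    1 / 2 ≤ EE (64 ^ k) (fun w => if Hit k (tr u (rng w)) then (1 : ℝ) else 0) := by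
  have hB := BB_pos k
  set S : ℕ := 64 ^ k with hS
  set T : ℕ := 64 ^ (k + 1) with hT
  have hT2 : T + 1 ≤ 2 ^ (6 * k + 7) := by
    have : T = 2 ^ (6 * k + 6) := by
      rw [hT, show 6 * k + 6 = 6 * (k + 1) by ring, pow_mul]; norm_num
    have h1 : 1 ≤ 2 ^ (6 * k + 6) := Nat.one_le_two_pow
    rw [this, pow_succ 2 (6 * k + 6)]; omega
  have hST : S ≤ T := Nat.pow_le_pow_right (by norm_num) (by omega)
  have hJ : EE S (JJ S T) ≤ (S + 1) * BB k := by
    refine EJ_le ((harm_le (j := 6 * k + 7) (by omega)).trans ?_) ((harm_le hT2).trans ?_) <;>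
      (push_cast; linarith)
  have h1 : EE S (fun w => (1 - (if dd w ≤ ro k then (0 : ℝ) else 1)) -
      (4 * ((S + 1) * BB k))⁻¹ * JJ S T w) ≤
      EE S (fun w => if Hit k (tr u (rng w)) then (1 : ℝ) else 0) := by
    refine EE_mono fun w _ => ?_
    have hJ0 := JJ_nonneg S T w
    have h2 : 0 ≤ (4 * ((S + 1) * BB k))⁻¹ * JJ S T w := by positivity
    by_cases hH : Hit k (tr u (rng w))
    · simp only [hH, if_true]; split_ifs <;> linarith
    simp only [hH, if_false]
    split_ifs with hd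
    swap
    · linarith
    by_contra hc
    have h3 : JJ S T w ≤ 4 * ((S + 1) * BB k) := by
      rw [inv_mul_eq_div, sub_zero, not_le, sub_pos, div_lt_one (by positivity)] at hc
      exact hc.le
    apply hH
    have h4 := hm_ge (S := S) (T := T) (ρ := ro (k + 1)) (u := u) (w := w) (W := tr u (rng w))
      (fun a ha => mem_image.2 ⟨a, ha, rfl⟩) (fun a ha => by
        have := nrm_add u a
        have := nrm_le_dd ha
        have : ro (k + 1) = 8 * ro k := by unfold ro; ring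
        omega) (tail_le (k + 1)) (θ := 8 * BB k) (by positivity)
    refine le_trans ?_ h4
    have h5 : (T + 1) * (2 * JJ S T w) / (4 * (8 * BB k) ^ 2) ≤
        (T + 1) * (2 * (4 * ((S + 1) * BB k))) / (4 * (8 * BB k) ^ 2) := by gcongr
    have e : eta k = 3 / 4 * ((S + 1) * (T + 1) / (8 * BB k)) -
        (T + 1) * (2 * (4 * ((S + 1) * BB k))) / (4 * (8 * BB k) ^ 2) := by
      unfold eta; rw [← hS, ← hT]; field_simp; ring
    linarith
  rw [EE_sub, EE_sub, EE_const, EE_mul] at h1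
  have h6 := tail_le k
  have h7 : (4 * ((S + 1) * BB k))⁻¹ * EE S (JJ S T) ≤ 1 / 4 := by
    rw [inv_mul_eq_div, div_le_iff₀ (by positivity)]; linarith
  linarith

end Pool.Agent.MP_52a2fa_pr.H50
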