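import Pool.Agent.MP_52a2fa_pr.H50.Walk

set_option autoImplicit false

namespace Pool.Agent.MP_52a2fa_pr.H50

open Finset MeasureTheory ProbabilityTheory
open scoped ENNReal

/-- indices of the Bernoulli field -/
abbrev I := V × Finset V

/-- law of the worm -/
noncomputable def nu (m : ℕ → ℝ) (A : Finset V) : ℝ :=
  ∑' n : ℕ, m (n + 1) * EE n (fun l => if rng l = A then 1 else 0)

lemma nu_eq (m : ℕ → ℝ) (A : Finset V) : (∑' n : ℕ, m (n + 1) *
    (((Finset.univ.filter (fun s : Fin n → Fin 4 × Bool =>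
      (Finset.range (n + 1)).image (fun t : ℕ =>
        ∑ i ∈ Finset.univ.filter (fun i : Fin n => (i : ℕ) < t),
          (Pi.single (s i).1 (if (s i).2 then (1 : ℤ) else -1) : Fin 4 → ℤ))
      = A)).card : ℝ) / (8 : ℝ) ^ n)) = nu m A := by
  refine tsum_congr fun n => ?_
  rw [EE_eq_sum, card_filter]
  simp only [rng_ofFn]
  push_cast; rfl

variable {m : ℕ → ℝ}

lemma ind_nonneg (n : ℕ) (A : Finset V) : 0 ≤ EE n (fun l => if rng l = A then (1 : ℝ) else 0) :=
  EE_nonneg fun l => by split_ifs <;> norm_num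

lemma nu_nonneg (h0 : ∀ l, 0 ≤ m l) (A : Finset V) : 0 ≤ nu m A :=
  tsum_nonneg fun n => mul_nonneg (h0 _) (ind_nonneg n A)

lemma nu_summable (h0 : ∀ l, 0 ≤ m l) (h1 : HasSum m 1) (A : Finset V) :
    Summable fun n : ℕ => m (n + 1) * EE n (fun l => if rng l = A then 1 else 0) := by
  refine Summable.of_nonneg_of_le (fun n => mul_nonneg (h0 _) (ind_nonneg n A)) (fun n => ?_)
    ((summable_nat_add_iff 1).2 h1.summable)
  exact mul_le_of_le_one_right (h0 _) (EE_le_const fun l _ => by split_ifs <;> norm_num)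

lemma ofReal_EE (h0 : ∀ l, 0 ≤ m l) (n : ℕ) {g : List St → ℝ} (hg : ∀ l, 0 ≤ g l) :
    ENNReal.ofReal (m (n + 1) * EE n g) =
      ∑' s : Fin n → St, ENNReal.ofReal (m (n + 1) / 8 ^ n) * ENNReal.ofReal (g (List.ofFn s)) := by
  have hw : 0 ≤ m (n + 1) / 8 ^ n := div_nonneg (h0 _) (by positivity)
  rw [tsum_fintype, ← mul_sum, ← ENNReal.ofReal_sum_of_nonneg fun s _ => hg _,
    ← ENNReal.ofReal_mul hw, EE_eq_sum]
  congr 1; ring

/-- total rate of a family of indices -/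
noncomputable def Mass (m : ℕ → ℝ) (S : Set I) : ℝ≥0∞ :=
  ∑' k : I, S.indicator (fun k => ENNReal.ofReal (nu m k.2)) k

/-- number of starting points for a given shape -/
noncomputable def cnt (S : Set I) (A : Finset V) : ℝ≥0∞ :=
  ∑' y : V, S.indicator (fun _ => (1 : ℝ≥0∞)) (y, A)

lemma mass_eq (h0 : ∀ l, 0 ≤ m l) (h1 : HasSum m 1) (S : Set I) :
    Mass m S = ∑' n : ℕ, ∑' s : Fin n → St,
      ENNReal.ofReal (m (n + 1) / 8 ^ n) * cnt S (rng (List.ofFn s)) := by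
  have e1 : ∀ k : I, S.indicator (fun k => ENNReal.ofReal (nu m k.2)) k =
      ∑' n : ℕ, ∑' s : Fin n → St, ENNReal.ofReal (m (n + 1) / 8 ^ n) *
        (if k.2 = rng (List.ofFn s) then S.indicator (fun _ => (1 : ℝ≥0∞)) k else 0) := by
    intro k
    by_cases hk : k ∈ S
    · simp only [Set.indicator_of_mem hk]
      rw [nu, ENNReal.ofReal_tsum_of_nonneg (fun n => mul_nonneg (h0 _) (ind_nonneg n _))
        (nu_summable h0 h1 _)]
      refine tsum_congr fun n => ?_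
      rw [ofReal_EE h0 n fun l => by split_ifs <;> norm_num]
      refine tsum_congr fun s => ?_
      by_cases h : rng (List.ofFn s) = k.2
      · simp [h]
      · simp [h, Ne.symm h]
    · simp [Set.indicator_of_notMem hk]
  rw [Mass, tsum_congr e1, ENNReal.tsum_comm]
  refine tsum_congr fun n => ?_
  rw [ENNReal.tsum_comm]
  refine tsum_congr fun s => ?_
  rw [ENNReal.tsum_mul_left, ENNReal.tsum_prod', cnt]
  congr 1
  refine tsum_congr fun y => ?_
  rw [tsum_eq_single (rng (List.ofFn s)) fun A hA => by simp [hA]]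
  simp

lemma mass_le (h0 : ∀ l, 0 ≤ m l) (h1 : HasSum m 1) {S : Set I} {g : List St → ℝ}
    (hg : ∀ l, 0 ≤ g l) (h : ∀ l, cnt S (rng l) ≤ ENNReal.ofReal (g l)) :
    Mass m S ≤ ∑' n : ℕ, ENNReal.ofReal (m (n + 1) * EE n g) := by
  rw [mass_eq h0 h1]
  refine ENNReal.tsum_le_tsum fun n => ?_
  rw [ofReal_EE h0 n hg]
  exact ENNReal.tsum_le_tsum fun s => by gcongr; exact h _

lemma mass_ge (h0 : ∀ l, 0 ≤ m l) (h1 : HasSum m 1) {S : Set I} {g : List St → ℝ}
    (hg : ∀ l, 0 ≤ g l) (h : ∀ l, ENNReal.ofReal (g l) ≤ cnt S (rng l)) (N : Finset ℕ) :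
    ENNReal.ofReal (∑ n ∈ N, m (n + 1) * EE n g) ≤ Mass m S := by
  rw [mass_eq h0 h1, ENNReal.ofReal_sum_of_nonneg fun n _ => mul_nonneg (h0 _) (EE_nonneg hg)]
  refine le_trans (sum_le_sum fun n _ => ?_) (ENNReal.sum_le_tsum N)
  rw [ofReal_EE h0 n hg]
  exact ENNReal.tsum_le_tsum fun s => by gcongr; exact h _

lemma cnt_le {S : Set I} {A : Finset V} {F : Finset V} (h : ∀ y, (y, A) ∈ S → y ∈ F) :
    cnt S A ≤ ENNReal.ofReal (F.card : ℝ) := by
  rw [cnt, tsum_eq_sum (s := F) fun y hy => Set.indicator_of_notMem (fun h' => hy (h y h')) _,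
    ENNReal.ofReal_natCast]
  refine (sum_le_card_nsmul F _ 1 fun y _ => ?_).trans (by simp)
  exact Set.indicator_le_self' (fun _ _ => zero_le) _

lemma le_cnt {S : Set I} {A : Finset V} {F : Finset V} (h : ∀ y ∈ F, (y, A) ∈ S) :
    ENNReal.ofReal (F.card : ℝ) ≤ cnt S A := by
  rw [cnt, ENNReal.ofReal_natCast]
  refine le_trans (le_of_eq ?_) (ENNReal.sum_le_tsum F)
  rw [sum_congr rfl fun y hy => Set.indicator_of_mem (h y hy) _]
  simp

lemma mass_le_const (h0 : ∀ l, 0 ≤ m l) (h1 : HasSum m 1) {S : Set I} {F : Finset V}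
    (h : ∀ k ∈ S, k.1 ∈ F) : Mass m S ≤ ENNReal.ofReal (F.card : ℝ) := by
  refine (mass_le h0 h1 (g := fun _ => (F.card : ℝ)) (fun _ => by positivity)
    fun l => cnt_le fun y hy => h _ hy).trans ?_
  simp only [EE_const]
  have hs : Summable fun n : ℕ => m (n + 1) := (summable_nat_add_iff 1).2 h1.summable
  rw [← ENNReal.ofReal_tsum_of_nonneg (fun n => mul_nonneg (h0 _) (by positivity))
    (hs.mul_right _), tsum_mul_right]
  refine ENNReal.ofReal_le_ofReal (mul_le_of_le_one_left (by positivity) ?_)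
  have := h1.summable.sum_add_tsum_nat_add 1
  rw [h1.tsum_eq] at this
  simp only [range_one, sum_singleton] at this
  linarith [h0 0]

/-- the Bernoulli field of present worms -/
structure Model (m : ℕ → ℝ) (v : ℝ) {Ω : Type} [MeasurableSpace Ω] (P : Measure Ω)
    (ξ : I → Ω → Bool) : Prop where
  meas : ∀ k, Measurable (ξ k)
  indep : iIndepFun ξ P
  law : ∀ k, P {ω | ξ k ω = true} = ENNReal.ofReal (1 - Real.exp (-(v * nu m k.2)))

variable {v : ℝ} {Ω : Type} [mΩ : MeasurableSpace Ω] {P : Measure Ω} {ξ : I → Ω → Bool}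

/-- sigma-algebra of a family of indices -/
abbrev sg (ξ : I → Ω → Bool) (S : Set I) : MeasurableSpace Ω :=
  ⨆ k ∈ S, MeasurableSpace.comap (ξ k) inferInstance

omit mΩ in
lemma sg_meas {S : Set I} {k : I} (hk : k ∈ S) (b : Bool) :
    MeasurableSet[sg ξ S] {ω | ξ k ω = b} := by
  have h : MeasurableSpace.comap (ξ k) inferInstance ≤ sg ξ S :=
    le_iSup₂ (f := fun k (_ : k ∈ S) => MeasurableSpace.comap (ξ k) inferInstance) k hk
  exact h _ ⟨{b}, MeasurableSet.of_discrete, rfl⟩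

lemma Model.mul (h : Model m v P ξ) {S T : Set I} (hST : Disjoint S T) {A B : Set Ω}
    (hA : MeasurableSet[sg ξ S] A) (hB : MeasurableSet[sg ξ T] B) : P (A ∩ B) = P A * P B :=
  (Indep_iff _ _ _).1 (indep_iSup_of_disjoint (fun k => (h.meas k).comap_le)
    ((iIndepFun_iff_iIndep _ _ _).1 h.indep) hST) A B hA hB

lemma Model.one_le (h : Model m v P ξ) (hv : 0 ≤ v) (k : I) :
    P {ω | ξ k ω = true} ≤ ENNReal.ofReal v * ENNReal.ofReal (nu m k.2) := by
  rw [h.law, ← ENNReal.ofReal_mul hv]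
  refine ENNReal.ofReal_le_ofReal ?_
  linarith [Real.add_one_le_exp (-(v * nu m k.2))]

lemma Model.union_le (h : Model m v P ξ) (hv : 0 ≤ v) (S : Set I) :
    P {ω | ∃ k ∈ S, ξ k ω = true} ≤ ENNReal.ofReal v * Mass m S := by
  have : {ω | ∃ k ∈ S, ξ k ω = true} = ⋃ k, {ω | k ∈ S ∧ ξ k ω = true} := by ext; simp
  rw [this, Mass, ← ENNReal.tsum_mul_left]
  refine (measure_iUnion_le _).trans (ENNReal.tsum_le_tsum fun k => ?_)
  by_cases hk : k ∈ S
  · simpa [hk] using h.one_le hv k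
  · simp [hk]

lemma Model.none_fin [IsProbabilityMeasure P] (h : Model m v P ξ) (hv : 0 ≤ v)
    (h0 : ∀ l, 0 ≤ m l) (T : Finset I) :
    P {ω | ∀ k ∈ T, ξ k ω = false} = ENNReal.ofReal (Real.exp (-(v * ∑ k ∈ T, nu m k.2))) := by
  have e : {ω | ∀ k ∈ T, ξ k ω = false} = ⋂ k ∈ T, ξ k ⁻¹' {false} := by ext; simp
  rw [e, h.indep.measure_inter_preimage_eq_mul T fun _ _ => MeasurableSet.of_discrete,
    mul_sum, ← sum_neg_distrib, Real.exp_sum,
    ENNReal.ofReal_prod_of_nonneg fun _ _ => (Real.exp_pos _).le]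
  refine prod_congr rfl fun k _ => ?_
  have e2 : ξ k ⁻¹' {false} = {ω | ξ k ω = true}ᶜ := by ext; simp
  have hm : MeasurableSet {ω | ξ k ω = true} := h.meas k (MeasurableSet.of_discrete (s := {true}))
  have h3 : Real.exp (-(v * nu m k.2)) ≤ 1 :=
    Real.exp_le_one_iff.2 (neg_nonpos.2 (mul_nonneg hv (nu_nonneg h0 _)))
  rw [e2, prob_compl_eq_one_sub hm, h.law, ← ENNReal.ofReal_one,
    ← ENNReal.ofReal_sub _ (by linarith)]
  congr 1; ring

lemma Model.none_le [IsProbabilityMeasure P] (h : Model m v P ξ) (hv : 0 ≤ v)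
    (h0 : ∀ l, 0 ≤ m l) {S : Set I} {a : ℝ} (ha : ENNReal.ofReal a < Mass m S) :
    P {ω | ∀ k ∈ S, ξ k ω = false} ≤ ENNReal.ofReal (Real.exp (-(v * a))) := by
  classical
  rw [Mass, ENNReal.tsum_eq_iSup_sum, lt_iSup_iff] at ha
  obtain ⟨T, hT⟩ := ha
  have e : ∑ k ∈ T, S.indicator (fun k => ENNReal.ofReal (nu m k.2)) k =
      ENNReal.ofReal (∑ k ∈ T.filter (· ∈ S), nu m k.2) := by
    rw [ENNReal.ofReal_sum_of_nonneg fun k _ => nu_nonneg h0 _, sum_filter]
    refine sum_congr rfl fun k _ => ?_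
    by_cases hk : k ∈ S <;> simp [hk]
  rw [e] at hT
  have h2 : a ≤ ∑ k ∈ T.filter (· ∈ S), nu m k.2 := by
    by_contra hc
    exact absurd (ENNReal.ofReal_le_ofReal (not_le.1 hc).le) (not_le.2 hT)
  calc P {ω | ∀ k ∈ S, ξ k ω = false} ≤ P {ω | ∀ k ∈ T.filter (· ∈ S), ξ k ω = false} :=
        measure_mono fun ω hω k hk => hω k (mem_filter.1 hk).2
    _ ≤ _ := by
        rw [h.none_fin hv h0]
        exact ENNReal.ofReal_le_ofReal (Real.exp_le_exp.2 (by nlinarith))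

end Pool.Agent.MP_52a2fa_pr.H50
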