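import Pool.Agent.MP_52a2fa_pr.H50.Cover
import Pool.Agent.MP_52a2fa_pr.H50.Graph

set_option autoImplicit false

namespace Pool.Agent.MP_52a2fa_pr.H50

open Finset MeasureTheory ProbabilityTheory Filter
open scoped ENNReal

/-- worms contained in a box -/
def GS (x : V) (r : ℕ) : Set I := {k | k.2.Nonempty ∧ ∀ a ∈ k.2, nrm (k.1 + a - x) ≤ 10 * r}

variable {Ω : Type}

/-- crossing of an annulus by local worms -/
def Gev (ξ : I → Ω → Bool) (x : V) (r : ℕ) : Set Ω :=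
  {ω | ∃ p q, nrm (p - x) ≤ r ∧ 8 * r < nrm (q - x) ∧ Conn (occ ξ (GS x r) ω) p q}

/-- presence of a large worm -/
def Hev (ξ : I → Ω → Bool) (x : V) (r : ℕ) : Set Ω := {ω | ∃ k ∈ HS x r, ξ k ω = true}

variable {ξ : I → Ω → Bool}

lemma loc {ω : Ω} {x a p q : V} {r : ℕ} {S : Set I} (hH : ω ∉ Hev ξ x r)
    (c : Conn (occ ξ S ω) p q) (hp : nrm (p - a) ≤ r) (hq : 8 * r < nrm (q - a))
    (ha : nrm (a - x) + 8 * r + 1 ≤ 100 * r) : ω ∈ Gev ξ a r := by
  obtain ⟨q', h1, h2⟩ := c.exit (O' := occ ξ (GS a r) ω) (a := a) (s := 8 * r) (by omega) hq (by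
    rintro z ⟨k, -, hk, hz⟩ hza
    refine ⟨k, ⟨⟨_, hz⟩, fun b hb => ?_⟩, hk, hz⟩
    have h3 : ¬ r ≤ nrm (b - (z - k.1)) + 1 := fun h => hH ⟨k, ⟨⟨_, hz, by
      have := nrm_tri z a x
      rw [add_sub_cancel]; omega⟩, b, hb, _, hz, h⟩, hk⟩
    have h4 := nrm_tri (k.1 + b) z a
    rw [show k.1 + b - z = b - (z - k.1) by abel] at h4
    omega)
  exact ⟨p, q', hp, h1, h2⟩

/-- nets -/
@[irreducible] noncomputable def net (x : V) (c r : ℕ) : Finset V := (box 0 c).image (fun u => x + (r : ℤ) • u)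

lemma card_net (x : V) (c r : ℕ) : (net x c r).card ≤ (2 * c + 1) ^ 4 := by
  unfold net
  exact card_image_le.trans (card_box 0 c).le

lemma exists_net {x p : V} {c r : ℕ} (hr : 1 ≤ r) (h : nrm (p - x) ≤ c * r) :
    ∃ a ∈ net x c r, nrm (p - a) ≤ r := by
  have hr' : (0 : ℤ) < r := by exact_mod_cast hr
  unfold net
  refine ⟨x + (r : ℤ) • fun j => (p j - x j) / r, mem_image.2 ⟨_, ?_, rfl⟩, ?_⟩
  · rw [mem_box, sub_zero, nrm_le]
    intro j
    have h1 := nrm_le.1 h j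
    simp only [Pi.sub_apply] at h1
    have h2 : p j - x j ≤ (c : ℤ) * r := by
      have : ((c * r : ℕ) : ℤ) = c * r := by push_cast; ring
      omega
    have h3 : -(c : ℤ) * r ≤ p j - x j := by
      have : ((c * r : ℕ) : ℤ) = c * r := by push_cast; ring
      rw [neg_mul]; omega
    have h4 : (p j - x j) / r ≤ c := Int.ediv_le_of_le_mul hr' h2
    have h5 : -(c : ℤ) ≤ (p j - x j) / r := Int.le_ediv_of_mul_le hr' h3
    omega
  · rw [nrm_le]
    intro j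
    have h1 := Int.emod_nonneg (p j - x j) hr'.ne'
    have h2 := Int.emod_lt_of_pos (p j - x j) hr'
    have h3 := Int.emod_add_mul_ediv (p j - x j) r
    simp only [Pi.sub_apply, Pi.add_apply, Pi.smul_apply, smul_eq_mul]
    omega

lemma G_rec (x : V) {r : ℕ} (hr : 1 ≤ r) : Gev ξ x (10 * r) ⊆ Hev ξ x r ∪
    ⋃ a ∈ (net x 10 r).filter (fun a => nrm (a - x) ≤ 11 * r),
    ⋃ b ∈ (net x 50 r).filter (fun b => 49 * r ≤ nrm (b - x)), Gev ξ a r ∩ Gev ξ b r := by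
  rintro ω ⟨p, q, hp, hq, c⟩
  by_cases hH : ω ∈ Hev ξ x r
  · exact Or.inl hH
  right
  obtain ⟨a, ha, hpa⟩ := exists_net hr hp
  obtain ⟨p', hp', c'⟩ := c.ivt (a := x) (s := 50 * r) (by omega) (by omega)
  obtain ⟨b, hb, hpb⟩ := exists_net hr hp'.le
  have h1 := nrm_tri a p x
  have h2 := nrm_sub_comm a p
  have h3 := nrm_tri q a x
  have h4 := nrm_tri b p' x
  have h5 := nrm_sub_comm b p'
  have h6 := nrm_tri p' b x
  have h7 := nrm_tri q b x
  simp only [Set.mem_iUnion, mem_filter]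
  exact ⟨a, ⟨ha, by omega⟩, b, ⟨hb, by omega⟩, loc hH c hpa (by omega) (by omega),
    loc hH c' hpb (by omega) (by omega)⟩

lemma GS_disjoint {x a b : V} {r : ℕ} (hr : 1 ≤ r) (ha : nrm (a - x) ≤ 11 * r)
    (hb : 49 * r ≤ nrm (b - x)) : Disjoint (GS a r) (GS b r) := by
  rw [Set.disjoint_left]
  rintro k ⟨⟨z, hz⟩, h1⟩ ⟨-, h2⟩
  have h3 := h1 z hz
  have h4 := h2 z hz
  have h5 := nrm_tri b (k.1 + z) x
  have h6 := nrm_tri (k.1 + z) a x
  have h7 := nrm_sub_comm b (k.1 + z)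
  omega

lemma G_meas (x : V) (r : ℕ) : MeasurableSet[sg ξ (GS x r)] (Gev ξ x r) := by
  let _ : MeasurableSpace Ω := sg ξ (GS x r)
  exact measurableSet_setOfPred.2 (Measurable.exists fun p => Measurable.exists fun q =>
    measurable_const.and (measurable_const.and (meas_conn (meas_occ ξ _) p q)))

lemma G_one (x : V) : Gev ξ x 1 ⊆ Hev ξ x 1 := by
  rintro ω ⟨p, q, hp, hq, c⟩
  rcases c.cases_head with rfl | ⟨c, ⟨⟨k, -, hk, hz⟩, -⟩, -⟩
  · omega
  · exact ⟨k, ⟨⟨_, hz, by rw [add_sub_cancel]; omega⟩, _, hz, _, hz, by omega⟩, hk⟩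

lemma perc_sub {r : ℕ} (hr : 1 ≤ r) :
    {ω | ∃ y, nrm y ≤ r ∧ {z | Conn (occ ξ Set.univ ω) y z}.Infinite} ⊆ Hev ξ 0 r ∪ Gev ξ 0 r := by
  rintro ω ⟨y, hy, hi⟩
  by_cases hH : ω ∈ Hev ξ 0 r
  · exact Or.inl hH
  obtain ⟨q, c, hq⟩ := hi.exists_notMem_finset (box 0 (8 * r))
  rw [mem_box, not_le] at hq
  exact Or.inr (loc hH c (by simpa using hy) hq (by simp; omega))

variable [mΩ : MeasurableSpace Ω] {P : Measure Ω} {m : ℕ → ℝ} {v : ℝ}

lemma G_le (h : Model m v P ξ) {δ : ℝ} (hδ : 0 ≤ δ) (hδ' : 4 * (21 ^ 4 * 101 ^ 4) * δ ≤ 1)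
    (hH : ∀ x r, 1 ≤ r → P (Hev ξ x r) ≤ ENNReal.ofReal δ) (n : ℕ) (x : V) :
    P (Gev ξ x (10 ^ n)) ≤ ENNReal.ofReal (2 * δ) := by
  induction n generalizing x with
  | zero =>
    exact ((measure_mono (G_one x)).trans (hH x 1 le_rfl)).trans
      (ENNReal.ofReal_le_ofReal (by linarith))
  | succ n ih =>
    have hr : 1 ≤ 10 ^ n := Nat.one_le_pow _ _ (by norm_num)
    rw [pow_succ']
    refine (measure_mono (G_rec x hr)).trans ((measure_union_le _ _).trans ?_)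
    have h1 : P (⋃ a ∈ (net x 10 (10 ^ n)).filter (fun a => nrm (a - x) ≤ 11 * 10 ^ n),
        ⋃ b ∈ (net x 50 (10 ^ n)).filter (fun b => 49 * 10 ^ n ≤ nrm (b - x)),
          Gev ξ a (10 ^ n) ∩ Gev ξ b (10 ^ n)) ≤
        (21 ^ 4 : ℕ) • (101 ^ 4 : ℕ) • (ENNReal.ofReal (2 * δ) * ENNReal.ofReal (2 * δ)) := by
      refine (measure_biUnion_finset_le _ _).trans ((sum_le_card_nsmul _ _ _ fun a ha => ?_).trans
        (nsmul_le_nsmul_left zero_le ((card_filter_le _ _).trans (card_net x 10 _))))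
      refine (measure_biUnion_finset_le _ _).trans ((sum_le_card_nsmul _ _ _ fun b hb => ?_).trans
        (nsmul_le_nsmul_left zero_le ((card_filter_le _ _).trans (card_net x 50 _))))
      rw [h.mul (GS_disjoint hr (mem_filter.1 ha).2 (mem_filter.1 hb).2) (G_meas _ _) (G_meas _ _)]
      exact mul_le_mul' (ih a) (ih b)
    refine (add_le_add (hH x _ hr) h1).trans ?_
    rw [← ENNReal.ofReal_mul (by positivity), ← ENNReal.ofReal_nsmul, ← ENNReal.ofReal_nsmul,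
      ← ENNReal.ofReal_add hδ (by positivity)]
    refine ENNReal.ofReal_le_ofReal ?_
    simp only [nsmul_eq_mul]
    push_cast
    nlinarith

omit mΩ in
lemma perc_tail : MeasurableSet[limsup (fun k => MeasurableSpace.comap (ξ k) inferInstance) cofinite]
    {ω | Perc (occ ξ Set.univ ω)} := by
  rw [limsup_eq_iInf_iSup, MeasurableSpace.measurableSet_iInf]
  intro t
  rw [MeasurableSpace.measurableSet_iInf]
  intro ht
  have e : {ω | Perc (occ ξ Set.univ ω)} = {ω | Perc (occ ξ t ω)} := by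
    ext ω
    constructor
    · refine Perc.of_finite (F := ⋃ k ∈ tᶜ, (k.2.image (fun a => k.1 + a) : Set V))
        (Set.Finite.biUnion ht fun k _ => Finset.finite_toSet _) ?_
      rintro z ⟨k, -, hk, hz⟩ hF
      refine ⟨k, ?_, hk, hz⟩
      by_contra hkt
      exact hF (Set.mem_iUnion₂.2 ⟨k, hkt, mem_coe.2 (mem_image.2 ⟨_, hz, by abel⟩)⟩)
    · exact Perc.mono fun z ⟨k, _, hk, hz⟩ => ⟨k, trivial, hk, hz⟩
  rw [e]
  let _ : MeasurableSpace Ω := sg ξ t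
  exact measurableSet_setOfPred.2 (meas_perc (meas_occ ξ t))

lemma Model.zero_one (h : Model m v P ξ) :
    P {ω | Perc (occ ξ Set.univ ω)} = 0 ∨ P {ω | Perc (occ ξ Set.univ ω)} = 1 := by
  classical
  refine measure_zero_or_one_of_measurableSet_limsup (p := Set.Finite)
    (ns := fun F : Finset I => (F : Set I)) (fun k => (h.meas k).comap_le)
    ((iIndepFun_iff_iIndep _ _ _).1 h.indep) (fun t ht => ht.compl_mem_cofinite) ?_
    (fun F => F.finite_toSet) (fun k => ⟨{k}, by simp⟩) perc_tail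
  intro a b
  exact ⟨a ∪ b, by simp, by simp⟩

/-- the subcritical phase -/
theorem subcritical {C : ℝ} (h0 : ∀ l, 0 ≤ m l) (h1 : HasSum m 1) (hC : 0 < C)
    (h3 : ∀ l : ℕ, 1 ≤ l → m l ≤ C / (l : ℝ) ^ 3)
    (h : Model m (1 / (4 * (21 ^ 4 * 101 ^ 4) * (C * 10 ^ 20))) P ξ) :
    P {ω | Perc (occ ξ Set.univ ω)} = 0 := by
  refine h.zero_one.resolve_right (ne_of_lt ?_)
  set δ : ℝ := 1 / (4 * (21 ^ 4 * 101 ^ 4)) with hδ
  have hH : ∀ x r, 1 ≤ r → P (Hev ξ x r) ≤ ENNReal.ofReal δ := by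
    intro x r hr
    refine (h.union_le (by positivity) _).trans
      ((mul_le_mul' le_rfl (mass_HS h0 h1 hC h3 x hr)).trans (le_of_eq ?_))
    rw [← ENNReal.ofReal_mul (by positivity), hδ]
    congr 1; field_simp
  have hG := G_le h (δ := δ) (by positivity) (by rw [hδ]; norm_num) hH
  have e : {ω | Perc (occ ξ Set.univ ω)} =
      ⋃ n : ℕ, {ω | ∃ y, nrm y ≤ 10 ^ n ∧ {z | Conn (occ ξ Set.univ ω) y z}.Infinite} := by
    ext ω
    simp only [Perc, Set.mem_ofPred_eq, Set.mem_iUnion]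
    constructor
    · rintro ⟨y, hy⟩
      exact ⟨nrm y, y, (Nat.lt_pow_self (by norm_num)).le, hy⟩
    · rintro ⟨_, y, -, hy⟩; exact ⟨y, hy⟩
  rw [e, Monotone.measure_iUnion]
  · refine lt_of_le_of_lt (iSup_le fun n => ?_) (show ENNReal.ofReal (δ + 2 * δ) < 1 from ?_)
    · have hr : 1 ≤ 10 ^ n := Nat.one_le_pow _ _ (by norm_num)
      refine (measure_mono (perc_sub hr)).trans ((measure_union_le _ _).trans ?_)
      rw [ENNReal.ofReal_add (by positivity) (by positivity)]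
      exact add_le_add (hH _ _ hr) (hG n 0)
    · rw [ENNReal.ofReal_lt_one, hδ]; norm_num
  · rintro a b hab ω ⟨y, hy, hi⟩
    exact ⟨y, hy.trans (Nat.pow_le_pow_right (by norm_num) hab), hi⟩

end Pool.Agent.MP_52a2fa_pr.H50
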