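import Mathlib

set_option autoImplicit false

namespace Pool.Agent.MP_52a2fa_pr.H50

open Finset

/-- sites -/
abbrev V := Fin 4 → ℤ
/-- steps -/
abbrev St := Fin 4 × Bool

/-- displacement of a step -/
def stp (σ : St) : V := Pi.single σ.1 (if σ.2 then (1 : ℤ) else -1)

/-- end point of a walk -/
def pos (l : List St) : V := (l.map stp).sum

/-- range of a walk -/
def rng : List St → Finset V
  | [] => {0}
  | σ :: l => insert 0 ((rng l).image (fun a => stp σ + a))

/-- sup norm -/
def nrm (z : V) : ℕ := univ.sup (fun j => (z j).natAbs)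

/-- maximal displacement -/
def dd (l : List St) : ℕ := (rng l).sup nrm

/-- box -/
noncomputable def box (x : V) (r : ℕ) : Finset V :=
  Fintype.piFinset (fun j => Finset.Icc (x j - r) (x j + r))

/-- expectation over `n` uniform steps -/
noncomputable def EE : ℕ → (List St → ℝ) → ℝ
  | 0, f => f []
  | n + 1, f => (∑ σ : St, EE n (fun l => f (σ :: l))) / 8

@[simp] lemma pos_nil : pos [] = 0 := rfl
@[simp] lemma pos_cons (σ : St) (l : List St) : pos (σ :: l) = stp σ + pos l := by
  simp [pos]
lemma pos_append (a b : List St) : pos (a ++ b) = pos a + pos b := by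
  simp [pos]

lemma nrm_le {z : V} {r : ℕ} : nrm z ≤ r ↔ ∀ j, (z j).natAbs ≤ r := by
  simp [nrm]

lemma le_nrm (z : V) (j : Fin 4) : (z j).natAbs ≤ nrm z := nrm_le.1 le_rfl j

lemma nrm_add (a b : V) : nrm (a + b) ≤ nrm a + nrm b := by
  rw [nrm_le]; intro j
  have h1 := le_nrm a j; have h2 := le_nrm b j
  simp only [Pi.add_apply]; omega

lemma nrm_neg (a : V) : nrm (-a) = nrm a := by
  simp [nrm]

lemma nrm_sub_comm (a b : V) : nrm (a - b) = nrm (b - a) := by
  rw [← nrm_neg, neg_sub]

lemma nrm_sub (a b : V) : nrm (a - b) ≤ nrm a + nrm b := by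
  rw [sub_eq_add_neg]; exact (nrm_add _ _).trans (by rw [nrm_neg])

lemma nrm_tri (a b c : V) : nrm (a - c) ≤ nrm (a - b) + nrm (b - c) := by
  have := nrm_add (a - b) (b - c)
  rwa [sub_add_sub_cancel] at this

@[simp] lemma nrm_zero : nrm 0 = 0 := by simp [nrm]

lemma mem_box {x z : V} {r : ℕ} : z ∈ box x r ↔ nrm (z - x) ≤ r := by
  rw [nrm_le]
  simp only [box, Fintype.mem_piFinset, mem_Icc, Pi.sub_apply]
  refine forall_congr' fun j => ?_
  omega

lemma card_box (x : V) (r : ℕ) : (box x r).card = (2 * r + 1) ^ 4 := by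
  rw [box, Fintype.card_piFinset]
  have : ∀ j : Fin 4, (Finset.Icc (x j - r) (x j + r)).card = 2 * r + 1 := by
    intro j; rw [Int.card_Icc]; omega
  simp [this]

lemma zero_mem_rng (l : List St) : (0 : V) ∈ rng l := by
  cases l <;> simp [rng]

lemma mem_rng_append {a b : List St} {z : V} :
    z ∈ rng (a ++ b) ↔ z ∈ rng a ∨ ∃ w ∈ rng b, z = pos a + w := by
  induction a generalizing z with
  | nil =>
    simp only [List.nil_append, rng, mem_singleton, pos_nil, zero_add, exists_eq_right']
    constructor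
    · exact Or.inr
    · rintro (rfl | h)
      · exact zero_mem_rng b
      · exact h
  | cons σ a ih =>
    simp only [List.cons_append, rng, mem_insert, mem_image, ih, pos_cons]
    constructor
    · rintro (h | ⟨c, h | ⟨w, hw, rfl⟩, rfl⟩)
      · exact Or.inl (Or.inl h)
      · exact Or.inl (Or.inr ⟨c, h, rfl⟩)
      · exact Or.inr ⟨w, hw, by abel⟩
    · rintro ((h | ⟨c, h, rfl⟩) | ⟨w, hw, rfl⟩)
      · exact Or.inl h
      · exact Or.inr ⟨c, Or.inl h, rfl⟩
      · exact Or.inr ⟨pos a + w, Or.inr ⟨w, hw, rfl⟩, by abel⟩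

lemma pos_mem_rng (l : List St) : pos l ∈ rng l := by
  have : pos l ∈ rng (l ++ []) := mem_rng_append.2 (Or.inr ⟨0, zero_mem_rng _, by simp⟩)
  simpa using this

lemma pos_take_mem_rng (l : List St) (t : ℕ) : pos (l.take t) ∈ rng l := by
  have : pos (l.take t) ∈ rng (l.take t ++ l.drop t) := mem_rng_append.2 (Or.inl (pos_mem_rng _))
  simpa using this

lemma mem_rng {l : List St} {z : V} : z ∈ rng l ↔ ∃ t ≤ l.length, z = pos (l.take t) := by
  constructor
  · induction l generalizing z with
    | nil => intro h; exact ⟨0, le_rfl, by simpa [rng] using h⟩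
    | cons σ l ih =>
      simp only [rng, mem_insert, mem_image]
      rintro (rfl | ⟨c, hc, rfl⟩)
      · exact ⟨0, by simp, by simp⟩
      · obtain ⟨t, ht, rfl⟩ := ih hc
        exact ⟨t + 1, by simpa using ht, by simp⟩
  · rintro ⟨t, -, rfl⟩; exact pos_take_mem_rng l t

lemma card_rng_le (l : List St) : (rng l).card ≤ l.length + 1 := by
  induction l with
  | nil => simp [rng]
  | cons σ l ih =>
    simp only [rng, List.length_cons]
    exact (card_insert_le _ _).trans (by have := card_image_le (s := rng l) (f := fun a => stp σ + a); omega)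

lemma nrm_le_dd {l : List St} {z : V} (h : z ∈ rng l) : nrm z ≤ dd l := Finset.le_sup (f := nrm) h

lemma dd_le {l : List St} {c : ℕ} : dd l ≤ c ↔ ∀ z ∈ rng l, nrm z ≤ c := Finset.sup_le_iff

lemma dd_append (a b : List St) : dd (a ++ b) ≤ max (dd a) (nrm (pos a) + dd b) := by
  rw [dd_le]; intro z hz
  rcases mem_rng_append.1 hz with h | ⟨w, hw, rfl⟩
  · exact (nrm_le_dd h).trans (le_max_left _ _)
  · exact ((nrm_add _ _).trans (Nat.add_le_add_left (nrm_le_dd hw) _)).trans (le_max_right _ _)

lemma card_St : Fintype.card St = 8 := by simp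

lemma EE_mono {n : ℕ} {f g : List St → ℝ} (h : ∀ l, l.length = n → f l ≤ g l) :
    EE n f ≤ EE n g := by
  induction n generalizing f g with
  | zero => exact h [] rfl
  | succ n ih =>
    simp only [EE]
    refine div_le_div_of_nonneg_right (sum_le_sum fun σ _ => ih fun l hl => h _ ?_) (by norm_num)
    simp [hl]

lemma EE_congr {n : ℕ} {f g : List St → ℝ} (h : ∀ l, l.length = n → f l = g l) :
    EE n f = EE n g :=
  le_antisymm (EE_mono fun l hl => (h l hl).le) (EE_mono fun l hl => (h l hl).ge)

lemma EE_const (n : ℕ) (c : ℝ) : EE n (fun _ => c) = c := by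
  induction n with
  | zero => rfl
  | succ n ih => simp only [EE, ih]; simp

lemma EE_add (n : ℕ) (f g : List St → ℝ) : EE n (fun l => f l + g l) = EE n f + EE n g := by
  induction n generalizing f g with
  | zero => rfl
  | succ n ih => simp only [EE, ih, sum_add_distrib]; ring

lemma EE_mul (n : ℕ) (c : ℝ) (f : List St → ℝ) : EE n (fun l => c * f l) = c * EE n f := by
  induction n generalizing f with
  | zero => rfl
  | succ n ih => simp only [EE, ih, ← mul_sum]; ring

lemma EE_sub (n : ℕ) (f g : List St → ℝ) : EE n (fun l => f l - g l) = EE n f - EE n g := by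
  induction n generalizing f g with
  | zero => rfl
  | succ n ih => simp only [EE, ih, sum_sub_distrib]; ring

lemma EE_sum {ι : Type} (n : ℕ) (s : Finset ι) (f : ι → List St → ℝ) :
    EE n (fun l => ∑ i ∈ s, f i l) = ∑ i ∈ s, EE n (f i) := by
  induction n generalizing f with
  | zero => rfl
  | succ n ih =>
    simp only [EE, ih]
    rw [sum_comm, sum_div]

lemma EE_nonneg {n : ℕ} {f : List St → ℝ} (h : ∀ l, 0 ≤ f l) : 0 ≤ EE n f := by
  have := EE_mono (n := n) (f := fun _ => 0) (g := f) fun l _ => h l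
  rwa [EE_const] at this

lemma EE_le_const {n : ℕ} {f : List St → ℝ} {c : ℝ} (h : ∀ l, l.length = n → f l ≤ c) :
    EE n f ≤ c := by
  have := EE_mono (n := n) (g := fun _ => c) h
  rwa [EE_const] at this

lemma EE_append (a b : ℕ) (f : List St → ℝ) :
    EE (a + b) f = EE a (fun l => EE b (fun l' => f (l ++ l'))) := by
  induction a generalizing f with
  | zero => simp [EE]
  | succ a ih =>
    rw [show a + 1 + b = (a + b) + 1 by ring]
    simp only [EE, ih, List.cons_append]

lemma EE_comm (a b : ℕ) (f : List St → List St → ℝ) :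
    EE a (fun l => EE b (fun l' => f l l')) = EE b (fun l' => EE a (fun l => f l l')) := by
  induction a generalizing f with
  | zero => rfl
  | succ a ih =>
    simp only [EE, ih]
    rw [← EE_sum]
    simp only [div_eq_inv_mul]
    rw [EE_mul]

lemma EE_eq_sum (n : ℕ) (f : List St → ℝ) :
    EE n f = (∑ s : Fin n → St, f (List.ofFn s)) / (8 : ℝ) ^ n := by
  induction n generalizing f with
  | zero => simp [EE]
  | succ n ih =>
    simp only [EE, ih]
    rw [← sum_div, div_div, pow_succ, ← (Fin.consEquiv (fun _ : Fin (n + 1) => St)).sum_comp,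
      Fintype.sum_prod_type (α₂ := Fin n → St)]
    simp [Fin.consEquiv, List.ofFn_succ]

/-- law of an increment -/
lemma EE_inc {n t t' : ℕ} (h : t ≤ t') (h' : t' ≤ n) (f : V → ℝ) :
    EE n (fun l => f (pos (l.take t') - pos (l.take t))) = EE (t' - t) (fun l => f (pos l)) := by
  obtain ⟨a, rfl⟩ := Nat.exists_eq_add_of_le h
  obtain ⟨c, rfl⟩ := Nat.exists_eq_add_of_le h'
  rw [add_assoc, EE_append, Nat.add_sub_cancel_left]
  rw [← EE_const t (EE a fun l => f (pos l))]
  refine EE_congr fun l1 h1 => ?_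
  rw [EE_append]
  refine EE_congr fun l2 h2 => ?_
  rw [← EE_const c (f (pos l2))]
  refine EE_congr fun l3 _ => ?_
  subst h1 h2
  rw [← List.append_assoc, ← List.length_append, List.take_left, List.append_assoc,
    List.take_left, pos_append, add_sub_cancel_left]

/-- the range as written in the frozen statement -/
lemma rng_ofFn (n : ℕ) (s : Fin n → St) :
    (Finset.range (n + 1)).image (fun t : ℕ =>
      ∑ i ∈ Finset.univ.filter (fun i : Fin n => (i : ℕ) < t),
        (Pi.single (s i).1 (if (s i).2 then (1 : ℤ) else -1) : Fin 4 → ℤ)) = rng (List.ofFn s) := by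
  have key : ∀ t : ℕ, ∑ i ∈ Finset.univ.filter (fun i : Fin n => (i : ℕ) < t),
        (Pi.single (s i).1 (if (s i).2 then (1 : ℤ) else -1) : Fin 4 → ℤ) =
        pos ((List.ofFn s).take t) := by
    intro t
    rw [pos, List.map_take, List.map_ofFn, List.sum_take_ofFn]
    rfl
  ext z
  simp only [mem_image, mem_range, key, mem_rng, List.length_ofFn]
  constructor
  · rintro ⟨t, ht, rfl⟩; exact ⟨t, by omega, rfl⟩
  · rintro ⟨t, ht, rfl⟩; exact ⟨t, by omega, rfl⟩

end Pool.Agent.MP_52a2fa_pr.H50
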